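import Mathlib

set_option autoImplicit false

/-!
# The Steinberg module of `SL₂` over the algebraic closure of a finite field
-/

namespace Pool.Agent.H15ST

open Matrix TensorProduct

/-- The algebraic closure of `𝔽_p` (it is also the algebraic closure of `𝔽_q`, `q = p ^ f`). -/
abbrev KK (p : ℕ) [Fact p.Prime] : Type := AlgebraicClosure (ZMod p)

/-- The abstract group `G = SL₂(K)`. -/
abbrev GG (p : ℕ) [Fact p.Prime] : Type := SpecialLinearGroup (Fin 2) (KK p)

/-- The subgroup `B` of upper triangular matrices. -/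
def Bor (p : ℕ) [Fact p.Prime] : Subgroup (GG p) where
  carrier := {g | g.1 1 0 = 0}
  mul_mem' := by
    intro a b ha hb
    change (a.1 * b.1) 1 0 = 0
    rw [Matrix.mul_apply, Fin.sum_univ_two, ha, hb]
    ring
  one_mem' := by
    change (1 : Matrix (Fin 2) (Fin 2) (KK p)) 1 0 = 0
    simp
  inv_mem' := by
    intro a ha
    change (a.1.adjugate) 1 0 = 0
    rw [Matrix.adjugate_fin_two]
    change a.1 1 0 = 0 at ha
    simp [ha]

/-- `M(tr) = 𝕜G ⊗_{𝕜B} 𝕜_tr`, realised as the permutation module `𝕜[G/B]`. -/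
abbrev Mtr (p : ℕ) [Fact p.Prime] (k : Type*) [Field k] : Type _ := (GG p ⧸ Bor p) →₀ k

/-- The action of `g` on `M(tr)`. -/
noncomputable def act {p : ℕ} [Fact p.Prime] {k : Type*} [Field k] (g : GG p) :
    Mtr p k →ₗ[k] Mtr p k :=
  Finsupp.lmapDomain k k (fun x : GG p ⧸ Bor p => g • x)

/-- The diagonal action of `g` on `M(tr) ⊗ M(tr)`. -/
noncomputable def act2 {p : ℕ} [Fact p.Prime] {k : Type*} [Field k] (g : GG p) :
    Mtr p k ⊗[k] Mtr p k →ₗ[k] Mtr p k ⊗[k] Mtr p k :=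
  TensorProduct.map (act g) (act g)

/-- The matrix `ε(x)`. -/
noncomputable def eps {p : ℕ} [Fact p.Prime] (x : KK p) : GG p :=
  ⟨!![1, x; 0, 1], by rw [Matrix.det_fin_two_of]; ring⟩

/-- The matrix `s`. -/
noncomputable def sm (p : ℕ) [Fact p.Prime] : GG p :=
  ⟨!![0, 1; -1, 0], by rw [Matrix.det_fin_two_of]; ring⟩

/-- `1_tr`. -/
noncomputable def onetr (p : ℕ) [Fact p.Prime] (k : Type*) [Field k] : Mtr p k :=
  Finsupp.single ((1 : GG p) : GG p ⧸ Bor p) 1

/-- `η = (1 - s) 1_tr`. -/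
noncomputable def eta (p : ℕ) [Fact p.Prime] (k : Type*) [Field k] : Mtr p k :=
  onetr p k - act (sm p) (onetr p k)

/-- `e_x = ε(x) η`. -/
noncomputable def ee {p : ℕ} [Fact p.Prime] (k : Type*) [Field k] (x : KK p) : Mtr p k :=
  act (eps x) (eta p k)

/-- `ρ_{x,y} = ½ (e_x ⊗ e_y - e_y ⊗ e_x)`. -/
noncomputable def rho {p : ℕ} [Fact p.Prime] (k : Type*) [Field k] (x y : KK p) :
    Mtr p k ⊗[k] Mtr p k :=
  (2 : k)⁻¹ • (ee k x ⊗ₜ[k] ee k y - ee k y ⊗ₜ[k] ee k x)

/-- `V_-`, the span of all `ρ_{x,y}`. -/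
noncomputable def Vminus (p : ℕ) [Fact p.Prime] (k : Type*) [Field k] :
    Submodule k (Mtr p k ⊗[k] Mtr p k) :=
  Submodule.span k (Set.range fun xy : KK p × KK p => rho k xy.1 xy.2)

end Pool.Agent.H15ST
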