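import Pool.Agent.H15ST.Gram4

set_option autoImplicit false
set_option linter.unusedSectionVars false

namespace Pool.Agent.H15ST

open Finset

variable {F : Type} [Field F] [DecidableEq F]

/-- The three types of generators, as permutations. -/
def IsGen (g : Equiv.Perm (Option F)) : Prop :=
  (∃ b : F, (g : Option F → Option F) = trP b) ∨
    (∃ a : F, a ≠ 0 ∧ (g : Option F → Option F) = scP a) ∨
    (g : Option F → Option F) = inP

theorem IsGen.symm {g : Equiv.Perm (Option F)} (h : IsGen g) : IsGen g.symm := by
  rcases h with ⟨b, hb⟩ | ⟨a, ha, hg⟩ | hg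
  · left
    refine ⟨-b, ?_⟩
    funext x
    rw [Equiv.symm_apply_eq, hb]
    cases x <;> simp [trP]
  · right; left
    refine ⟨a⁻¹, inv_ne_zero ha, ?_⟩
    funext x
    rw [Equiv.symm_apply_eq, hg]
    cases x <;> simp [scP, ha]
  · right; right
    funext x
    rw [Equiv.symm_apply_eq, hg, inP_inP]

/-- Words in the generators. -/
inductive Word : (Option F → Option F) → Prop
  | id : Word id
  | comp (g : Option F → Option F) (t : Equiv.Perm (Option F)) : Word g → IsGen t →
      Word (fun x => g (t x))

/-- The permutations `trP`, `scP`, `inP` as equivalences. -/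
def trE (b : F) : Equiv.Perm (Option F) where
  toFun := trP b
  invFun := trP (-b)
  left_inv x := by cases x <;> simp [trP]
  right_inv x := by cases x <;> simp [trP]

def scE (a : F) (ha : a ≠ 0) : Equiv.Perm (Option F) where
  toFun := scP a
  invFun := scP a⁻¹
  left_inv x := by cases x <;> simp [scP, ha]
  right_inv x := by cases x <;> simp [scP, ha]

def inE : Equiv.Perm (Option F) where
  toFun := inP
  invFun := inP
  left_inv x := inP_inP x
  right_inv x := inP_inP x

/-- Circulations. -/
def Circ [Fintype F] {R : Type*} [AddCommGroup R] (v : Option F → Option F → R) : Prop :=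
  (∀ a b, v b a = - v a b) ∧ ∀ a, ∑ b, v a b = 0

/-- The pairing. -/
def pr [Fintype F] {R : Type*} [CommRing R] (w v : Option F → Option F → R) : R :=
  ∑ a, ∑ b, w a b * v a b

theorem Circ.comp [Fintype F] {R : Type*} [AddCommGroup R] {v : Option F → Option F → R}
    (hv : Circ v) (t : Equiv.Perm (Option F)) : Circ (fun a b => v (t a) (t b)) := by
  refine ⟨fun a b => hv.1 _ _, fun a => ?_⟩
  rw [Equiv.sum_comp t (fun b => v (t a) b)]
  exact hv.2 _

section
variable [Fintype F]

/-- The Hilbert space of functions on pairs. -/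
abbrev HS (F : Type) : Type := EuclideanSpace ℂ (Option F × Option F)

/-- The vector of a function. -/
noncomputable def toH (v : Option F → Option F → ℂ) : (HS F) := WithLp.toLp 2 (fun x => v x.1 x.2)

theorem toH_apply (v : Option F → Option F → ℂ) (x : Option F × Option F) :
    (toH v) x = v x.1 x.2 := rfl

/-- The unitary action of a permutation. -/
noncomputable def UU (g : Equiv.Perm (Option F)) : (HS F) ≃ₗᵢ[ℂ] (HS F) :=
  LinearIsometryEquiv.piLpCongrLeft 2 ℂ ℂ (g.prodCongr g)

theorem UU_apply (g : Equiv.Perm (Option F)) (x : (HS F)) (y : Option F × Option F) :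
    (UU g x) y = x (g.symm y.1, g.symm y.2) := rfl

theorem fin_complex (v w : Option F → Option F → ℂ) (hv : Circ v) (S : Finset (Option F))
    (hS : (S.card : ℝ) ^ 4 * (2 + 2 * Real.sqrt (Fintype.card F)) <
      4 * ((Fintype.card F : ℝ) - 1))
    (hsupp : ∀ a b, v a b ≠ 0 → a ∈ S ∧ b ∈ S) (hne : ∃ a b, v a b ≠ 0)
    (hw : ∀ g, Word g → pr w (fun a b => v (g a) (g b)) = 0)
    (τ : Option F → Option F → ℂ) (hτ : Circ τ) : pr w τ = 0 := by
  classical
  -- the span of the translates
  let N : Submodule ℂ (HS F) :=
    Submodule.span ℂ {x | ∃ g, Word g ∧ x = toH (fun a b => v (g a) (g b))}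
  -- circulations
  let V : Submodule ℂ (HS F) :=
    { carrier := {x | (∀ a b, x (b, a) = - x (a, b)) ∧ ∀ a, ∑ b, x (a, b) = 0}
      zero_mem' := by
        refine ⟨fun a b => ?_, fun a => ?_⟩ <;> simp
      add_mem' := by
        intro x y hx hy
        refine ⟨fun a b => ?_, fun a => ?_⟩
        · rw [PiLp.add_apply, PiLp.add_apply, hx.1, hy.1]; ring
        · simp only [PiLp.add_apply]
          rw [Finset.sum_add_distrib, hx.2, hy.2, add_zero]
      smul_mem' := by
        intro c x hx
        refine ⟨fun a b => ?_, fun a => ?_⟩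
        · rw [PiLp.smul_apply, PiLp.smul_apply, hx.1]; simp
        · simp only [PiLp.smul_apply]
          rw [← Finset.smul_sum, hx.2, smul_zero] }
  have hVmem : ∀ x : (HS F), x ∈ V ↔ (∀ a b, x (b, a) = - x (a, b)) ∧ ∀ a, ∑ b, x (a, b) = 0 :=
    fun x => Iff.rfl
  have hWcirc : ∀ g, Word g → Circ (fun a b => v (g a) (g b)) := by
    intro g hg
    induction hg with
    | id => exact hv
    | comp g t _ _ ih => exact ih.comp t
  have hNV : N ≤ V := by
    apply Submodule.span_le.2
    rintro x ⟨g, hg, rfl⟩
    exact hWcirc g hg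
  let M : Submodule ℂ (HS F) := Nᗮ ⊓ V
  -- stability
  have hUN : ∀ g : Equiv.Perm (Option F), IsGen g → ∀ x ∈ N, UU g x ∈ N := by
    intro g hg x hx
    induction hx using Submodule.span_induction with
    | mem x hx =>
      obtain ⟨h, hh, rfl⟩ := hx
      exact Submodule.subset_span ⟨_, Word.comp h g.symm hh hg.symm, rfl⟩
    | zero => rw [map_zero]; exact N.zero_mem
    | add x y _ _ hx hy => rw [map_add]; exact N.add_mem hx hy
    | smul c x _ hx => rw [map_smul]; exact N.smul_mem c hx
  have hUV : ∀ g : Equiv.Perm (Option F), ∀ x ∈ V, UU g x ∈ V := by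
    intro g x hx
    refine ⟨fun a b => ?_, fun a => ?_⟩
    · rw [UU_apply, UU_apply]; exact hx.1 _ _
    · simp only [UU_apply]
      rw [Equiv.sum_comp g.symm (fun b => x (g.symm a, b))]
      exact hx.2 _
  have hUinv : ∀ (g : Equiv.Perm (Option F)) (x : (HS F)), UU g (UU g.symm x) = x := by
    intro g x
    ext y
    rw [UU_apply, UU_apply]
    simp
  have hUM : ∀ g : Equiv.Perm (Option F), IsGen g → ∀ x ∈ M, UU g x ∈ M := by
    intro g hg x hx
    refine ⟨(Submodule.mem_orthogonal _ _).2 ?_, hUV g x hx.2⟩
    intro u hu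
    have h1 := hUN g.symm hg.symm u hu
    have h2 := Submodule.inner_right_of_mem_orthogonal h1 hx.1
    rw [← hUinv g u, LinearIsometryEquiv.inner_map_map]
    exact h2
  -- the projection and the Gram system
  let P := M.starProjection
  have hPU : ∀ g : Equiv.Perm (Option F), IsGen g → ∀ x, P (UU g x) = UU g (P x) := by
    intro g hg x
    apply Submodule.eq_starProjection_of_mem_of_inner_eq_zero
    · exact hUM g hg _ (Submodule.coe_mem _)
    · intro y hy
      rw [← map_sub, ← hUinv g y, LinearIsometryEquiv.inner_map_map]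
      exact Submodule.starProjection_inner_eq_zero _ _ (hUM g.symm hg.symm y hy)
  let δ : Option F → Option F → (HS F) := fun a b => EuclideanSpace.single (a, b) (1 : ℂ)
  have hUδ : ∀ (g : Equiv.Perm (Option F)) (a b : Option F), UU g (δ a b) = δ (g a) (g b) := by
    intro g a b
    ext y
    rw [UU_apply]
    simp only [δ, PiLp.single_apply]
    obtain ⟨y1, y2⟩ := y
    simp only [Prod.mk.injEq, Equiv.symm_apply_eq]
  let E : Option F → Option F → (HS F) := fun a b => P (δ a b)
  have hin : ∀ (a b : Option F) (x : (HS F)), (inner ℂ (δ a b) x : ℂ) = x (a, b) := by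
    intro a b x
    simp [δ, EuclideanSpace.inner_single_left]
  have hPzero : ∀ z : (HS F), (∀ x ∈ V, (inner ℂ z x : ℂ) = 0) → P z = 0 := by
    intro z hz
    apply Submodule.eq_starProjection_of_mem_of_inner_eq_zero M.zero_mem
    intro x hx
    rw [sub_zero]
    exact hz x hx.2
  have hgram : Gram E := by
    refine ⟨?_, ?_, ?_, ?_, ?_⟩
    · intro a b
      have h1 : P (δ b a + δ a b) = 0 := by
        apply hPzero
        intro x hx
        rw [inner_add_left, hin, hin, hx.1 a b]
        ring
      rw [map_add] at h1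
      exact eq_neg_of_add_eq_zero_left h1
    · intro a
      change ∑ b, P (δ a b) = 0
      rw [← map_sum]
      apply hPzero
      intro x hx
      rw [sum_inner, Finset.sum_congr rfl fun b _ => hin a b x]
      exact hx.2 a
    · intro b a' b' c' d'
      have := fun x => hPU (trE b) (Or.inl ⟨b, rfl⟩) x
      change (inner ℂ (P (δ (trE b a') (trE b b'))) (P (δ (trE b c') (trE b d'))) : ℂ) = _
      rw [← hUδ, ← hUδ, this, this, LinearIsometryEquiv.inner_map_map]
    · intro a ha a' b' c' d'
      have := fun x => hPU (scE a ha) (Or.inr (Or.inl ⟨a, ha, rfl⟩)) x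
      change (inner ℂ (P (δ (scE a ha a') (scE a ha b'))) (P (δ (scE a ha c') (scE a ha d'))) : ℂ)
        = _
      rw [← hUδ, ← hUδ, this, this, LinearIsometryEquiv.inner_map_map]
    · intro a' b' c' d'
      have := fun x => hPU inE (Or.inr (Or.inr rfl)) x
      change (inner ℂ (P (δ (inE a') (inE b'))) (P (δ (inE c') (inE d'))) : ℂ) = _
      rw [← hUδ, ← hUδ, this, this, LinearIsometryEquiv.inner_map_map]
  -- the relation given by `v`
  have hvsum : ∀ u : Option F → Option F → ℂ, ∑ a, ∑ b, u a b • E a b = P (toH u) := by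
    intro u
    have h1 : toH u = ∑ a, ∑ b, u a b • δ a b := by
      ext y
      obtain ⟨y1, y2⟩ := y
      rw [toH_apply]
      simp only [WithLp.ofLp_sum, WithLp.ofLp_smul, Finset.sum_apply, Pi.smul_apply, δ,
        smul_eq_mul]
      rw [Finset.sum_eq_single y1]
      · rw [Finset.sum_eq_single y2]
        · simp
        · intro b _ hb
          simp [Ne.symm hb]
        · simp
      · intro a _ ha
        apply Finset.sum_eq_zero
        intro b _
        simp [Ne.symm ha]
      · simp
    rw [h1, map_sum]
    apply Finset.sum_congr rfl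
    intro a _
    rw [map_sum]
    apply Finset.sum_congr rfl
    intro b _
    rw [map_smul]
  have hPv : P (toH v) = 0 := by
    apply Submodule.eq_starProjection_of_mem_of_inner_eq_zero M.zero_mem
    intro x hx
    rw [sub_zero]
    have hvN : toH v ∈ N := Submodule.subset_span ⟨id, Word.id, rfl⟩
    exact Submodule.inner_right_of_mem_orthogonal hvN hx.1
  have hE0 : E (some 0) none = 0 := by
    by_contra hE
    obtain ⟨a, b, hab⟩ := hne
    exact hab (hgram.main hE S hS v hv.1 hsupp (by rw [hvsum, hPv]) a b)
  have hEall : ∀ a b, E a b = 0 := by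
    intro a b
    have h1 := hgram.norm_le a b
    rw [e0, hE0, norm_zero] at h1
    have h2 : ‖E a b‖ = 0 := by nlinarith [norm_nonneg (E a b)]
    exact norm_eq_zero.1 h2
  have hM : M = ⊥ := by
    rw [Submodule.eq_bot_iff]
    intro x hx
    have h1 : P x = x := Submodule.starProjection_eq_self_iff.2 hx
    have h2 : x = toH (fun a b => x (a, b)) := by
      ext y; rfl
    rw [← h1, h2, ← hvsum]
    simp [hEall]
  have hNeq : N = V := by
    have h1 := Submodule.sup_orthogonal_inf_of_hasOrthogonalProjection hNV
    change N ⊔ M = V at h1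
    rwa [hM, sup_bot_eq] at h1
  -- conclusion
  have hpair : ∀ x ∈ N, ∑ a, ∑ b, w a b * x (a, b) = 0 := by
    intro x hx
    induction hx using Submodule.span_induction with
    | mem x hx =>
      obtain ⟨g, hg, rfl⟩ := hx
      exact hw g hg
    | zero => simp
    | add x y _ _ hx hy =>
      simp only [PiLp.add_apply, mul_add, Finset.sum_add_distrib]
      rw [hx, hy, add_zero]
    | smul c x _ hx =>
      have : ∑ a, ∑ b, w a b * (c • x) (a, b) = c * ∑ a, ∑ b, w a b * x (a, b) := by
        rw [Finset.mul_sum]
        apply Finset.sum_congr rfl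
        intro a _
        rw [Finset.mul_sum]
        apply Finset.sum_congr rfl
        intro b _
        rw [PiLp.smul_apply, smul_eq_mul]; ring
      rw [this, hx, mul_zero]
  have hτN : toH τ ∈ N := by
    rw [hNeq]
    exact hτ
  exact hpair _ hτN

end

end Pool.Agent.H15ST
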