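import Pool.Agent.H15ST.Main

set_option autoImplicit false

set_option linter.unusedSectionVars false

namespace Pool.Agent.H15ST

open Matrix TensorProduct

variable {p : ℕ} [Fact p.Prime] {k : Type*} [Field k] [CharZero k]

theorem V_circ (x : DD p k)
    (hx : x ∈ (Vminus p k).map (Phi p k).toLinearMap) :
    Finsupp.lmapDomain k k Prod.swap x = - x ∧ Finsupp.lmapDomain k k Prod.fst x = 0 := by
  obtain ⟨t, ht, rfl⟩ := hx
  change Finsupp.lmapDomain k k Prod.swap (Phi p k t) = - (Phi p k t) ∧
    Finsupp.lmapDomain k k Prod.fst (Phi p k t) = 0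
  have hw : ∀ a b : Option (KK p), Finsupp.lmapDomain k k Prod.swap (wedge k a b) =
      - wedge k a b := by
    intro a b
    unfold wedge
    rw [map_sub, Finsupp.lmapDomain_apply, Finsupp.lmapDomain_apply, Finsupp.mapDomain_single,
      Finsupp.mapDomain_single]
    simp only [Prod.swap_prod_mk]
    abel
  have hf : ∀ a b : Option (KK p), Finsupp.lmapDomain k k Prod.fst (wedge k a b) =
      Finsupp.single a 1 - Finsupp.single b 1 := by
    intro a b
    unfold wedge
    rw [map_sub, Finsupp.lmapDomain_apply, Finsupp.lmapDomain_apply, Finsupp.mapDomain_single,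
      Finsupp.mapDomain_single]
  induction ht using Submodule.span_induction with
  | mem t ht =>
    obtain ⟨⟨x, y⟩, rfl⟩ := ht
    simp only [Phi_rho]
    constructor
    · rw [map_smul]
      unfold tri
      rw [map_add, map_add, hw, hw, hw, ← smul_neg]
      congr 1
      abel
    · rw [map_smul]
      unfold tri
      rw [map_add, map_add, hf, hf, hf]
      have : ∀ u v w : (Option (KK p) →₀ k), u - v + (v - w) + (w - u) = 0 := by
        intro u v w; abel
      rw [this, smul_zero]
  | zero => simp
  | add a b _ _ ha hb =>
    constructor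
    · rw [map_add, map_add, ha.1, hb.1]; abel
    · rw [map_add, map_add, ha.2, hb.2, add_zero]
  | smul c a _ ha =>
    constructor
    · rw [map_smul, map_smul, ha.1, smul_neg]
    · rw [map_smul, map_smul, ha.2, smul_zero]

theorem tri_mem (a b c : Option (KK p)) :
    tri k a b c ∈ (Vminus p k).map (Phi p k).toLinearMap := by
  set V := (Vminus p k).map (Phi p k).toLinearMap with hV
  have h1 : ∀ x y : KK p, tri k (some x) (some y) none ∈ V := by
    intro x y
    have h : tri k (some x) (some y) none = (2 : k) • Phi p k (rho k x y) := by
      rw [Phi_rho, smul_smul, mul_inv_cancel₀ two_ne_zero, one_smul]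
    rw [h]
    exact V.smul_mem _ ⟨_, Submodule.subset_span ⟨(x, y), rfl⟩, rfl⟩
  have hww : ∀ a b : Option (KK p), wedge k a b + wedge k b a = 0 := by
    intro a b
    unfold wedge
    abel
  have h2 : ∀ a b : Option (KK p), tri k a b none ∈ V := by
    intro a b
    cases a with
    | none =>
      have : tri k none b none = 0 := by
        unfold tri
        rw [hww, zero_add]
        unfold wedge
        abel
      rw [this]; exact V.zero_mem
    | some x =>
      cases b with
      | none =>
        have : tri k (some x) none none = 0 := by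
          unfold tri
          rw [add_right_comm, hww, zero_add]
          unfold wedge
          abel
        rw [this]; exact V.zero_mem
      | some y => exact h1 x y
  have h3 : tri k a b c = tri k a b none + tri k b c none + tri k c a none := by
    have e1 := hww none a
    have e2 := hww none b
    have e3 := hww none c
    have e1' : wedge k a none = - wedge k none a := eq_neg_of_add_eq_zero_right e1
    have e2' : wedge k b none = - wedge k none b := eq_neg_of_add_eq_zero_right e2
    have e3' : wedge k c none = - wedge k none c := eq_neg_of_add_eq_zero_right e3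
    unfold tri
    rw [e1', e2', e3']
    abel
  rw [h3]
  exact V.add_mem (V.add_mem (h2 _ _) (h2 _ _)) (h2 _ _)

/-- `V_-` is stable under `G`, nonzero, and has no `G`-stable subspaces other than `0` and
itself, i.e. it is a simple `𝕜G`-module. -/
theorem simple_old (p : ℕ) [Fact p.Prime] (k : Type*) [Field k] [CharZero k] :
    (∀ g : GG p, ∀ x ∈ Vminus p k, act2 g x ∈ Vminus p k) ∧ Vminus p k ≠ ⊥ ∧
      ∀ N : Submodule k (Mtr p k ⊗[k] Mtr p k), N ≤ Vminus p k →
        (∀ g : GG p, ∀ x ∈ N, act2 g x ∈ N) → N = ⊥ ∨ N = Vminus p k := by
  have hPinj : Function.Injective (Phi p k) := (Phi p k).injective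
  refine ⟨?_, ?_, ?_⟩
  · intro g x hx
    induction hx using Submodule.span_induction with
    | mem t ht =>
      obtain ⟨⟨x, y⟩, rfl⟩ := ht
      have h1 : Phi p k (act2 g (rho k x y)) ∈ (Vminus p k).map (Phi p k).toLinearMap := by
        rw [Phi_act2, Phi_rho, map_smul, ga_tri]
        exact Submodule.smul_mem _ _ (tri_mem _ _ _)
      obtain ⟨u, hu, he⟩ := h1
      have : u = act2 g (rho k x y) := hPinj he
      rw [← this]; exact hu
    | zero => rw [map_zero]; exact Submodule.zero_mem _
    | add a b _ _ ha hb => rw [map_add]; exact Submodule.add_mem _ ha hb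
    | smul c a _ ha => rw [map_smul]; exact Submodule.smul_mem _ _ ha
  · intro hbot
    have h1 : rho k (0 : KK p) 1 ∈ Vminus p k := Submodule.subset_span ⟨(0, 1), rfl⟩
    rw [hbot, Submodule.mem_bot] at h1
    have h2 := congrArg (Phi p k) h1
    rw [Phi_rho, map_zero, smul_eq_zero] at h2
    rcases h2 with h2 | h2
    · exact inv_ne_zero two_ne_zero h2
    · have h3 := DFunLike.congr_fun h2 (some (0 : KK p), some (1 : KK p))
      have h01 : (0 : KK p) ≠ 1 := zero_ne_one
      simp [tri, wedge, h01] at h3
  · intro N hN hstab
    by_cases hbot : N = ⊥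
    · left; exact hbot
    · right
      apply le_antisymm hN
      have hmain := D_main (N.map (Phi p k).toLinearMap)
        (by
          rintro g _ ⟨t, ht, rfl⟩
          exact ⟨act2 g t, hstab g t ht, Phi_act2 g t⟩)
        (by
          intro x hx
          exact V_circ x (Submodule.map_mono hN hx))
        (by
          intro h0
          apply hbot
          rw [Submodule.eq_bot_iff]
          intro t ht
          have : Phi p k t ∈ N.map (Phi p k).toLinearMap := ⟨t, ht, rfl⟩
          rw [h0, Submodule.mem_bot] at this
          exact hPinj (by rw [this, map_zero]))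
      have h01 : rho k (0 : KK p) 1 ∈ N := by
        have h1 : Phi p k (rho k (0 : KK p) 1) ∈ N.map (Phi p k).toLinearMap := by
          rw [Phi_rho]
          exact Submodule.smul_mem _ _ hmain
        obtain ⟨u, hu, he⟩ := h1
        have : u = rho k 0 1 := hPinj he
        rw [← this]; exact hu
      apply Submodule.span_le.2
      rintro _ ⟨⟨x, y⟩, rfl⟩
      change rho k x y ∈ N
      by_cases hxy : x = y
      · subst hxy
        unfold rho
        rw [sub_self, smul_zero]
        exact N.zero_mem
      · obtain ⟨g1, hg1⟩ := lift_sc (y - x) (sub_ne_zero.2 (Ne.symm hxy))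
        obtain ⟨g2, hg2⟩ := lift_tr x
        have h2 : act2 (g2 * g1) (rho k 0 1) = rho k x y := by
          apply hPinj
          rw [Phi_act2, Phi_rho, Phi_rho, map_smul, ga_tri, mob_mul, mob_mul, mob_mul, hg1, hg1,
            hg1, hg2, hg2, hg2]
          simp [scP, trP]
        rw [← h2]
        exact hstab _ _ h01

end Pool.Agent.H15ST
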