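import Mathlib

set_option autoImplicit false
set_option linter.unusedSectionVars false

/-!
# Gram systems indexed by ordered pairs of points of a projective line

`X = Option F` is the projective line over the finite field `F`.
-/

namespace Pool.Agent.H15ST

open Finset

variable {F : Type} [Field F] [DecidableEq F]

/-- Translation `z ↦ z + b`. -/
def trP (b : F) : Option F → Option F
  | none => none
  | some z => some (z + b)

/-- Scaling `z ↦ a z`. -/
def scP (a : F) : Option F → Option F
  | none => none
  | some z => some (a * z)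

/-- Inversion `z ↦ 1 / z`. -/
def inP : Option F → Option F
  | none => some 0
  | some z => if z = 0 then none else some z⁻¹

/-- Invariance of a function of four points. -/
def Inv {R : Type*} (e : Option F → Option F → Option F → Option F → R)
    (g : Option F → Option F) : Prop :=
  ∀ a b c d, e (g a) (g b) (g c) (g d) = e a b c d

/-- Invariance under the three types of generators. -/
structure AllInv {R : Type*} (e : Option F → Option F → Option F → Option F → R) : Prop where
  tr : ∀ b : F, Inv e (trP b)
  sc : ∀ a : F, a ≠ 0 → Inv e (scP a)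
  inv : Inv e inP

theorem Inv.comp {R : Type*} {e : Option F → Option F → Option F → Option F → R}
    {g h : Option F → Option F} (hg : Inv e g) (hh : Inv e h) : Inv e (fun x => g (h x)) :=
  fun a b c d => (hg _ _ _ _).trans (hh a b c d)

theorem trP_inj (b : F) : Function.Injective (trP b) := by
  intro x y h
  cases x <;> cases y <;> simp_all [trP]

theorem scP_inj (a : F) (ha : a ≠ 0) : Function.Injective (scP a) := by
  intro x y h
  cases x <;> cases y <;> simp_all [scP]

theorem inP_inP (x : Option F) : inP (inP x) = x := by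
  cases x with
  | none => simp [inP]
  | some z =>
    by_cases hz : z = 0
    · simp [inP, hz]
    · simp [inP, hz]

theorem inP_inj : Function.Injective (inP : Option F → Option F) := by
  intro x y h
  rw [← inP_inP x, ← inP_inP y, h]

theorem pair {R : Type*} {e : Option F → Option F → Option F → Option F → R} (he : AllInv e)
    {a b : Option F} (hab : a ≠ b) :
    ∃ g : Option F → Option F, Function.Injective g ∧ Inv e g ∧ g a = some 0 ∧ g b = none := by
  -- move `b` to infinity
  obtain ⟨g1, i1, h1, hb⟩ : ∃ g : Option F → Option F, Function.Injective g ∧ Inv e g ∧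
      g b = none := by
    cases b with
    | none => exact ⟨id, Function.injective_id, fun _ _ _ _ => rfl, rfl⟩
    | some β =>
      refine ⟨fun x => inP (trP (-β) x), inP_inj.comp (trP_inj _), he.inv.comp (he.tr _), ?_⟩
      simp [inP, trP]
  have hga : g1 a ≠ none := fun h => hab (i1 (h.trans hb.symm))
  obtain ⟨α, hα⟩ := Option.ne_none_iff_exists'.1 hga
  refine ⟨fun x => trP (-α) (g1 x), (trP_inj _).comp i1, (he.tr _).comp h1, ?_, ?_⟩
  · simp [hα, trP]
  · simp [hb, trP]

theorem triple {R : Type*} {e : Option F → Option F → Option F → Option F → R} (he : AllInv e)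
    {a b c : Option F} (hab : a ≠ b) (hac : a ≠ c) (hbc : b ≠ c) :
    ∃ g : Option F → Option F, Function.Injective g ∧ Inv e g ∧ g a = some 0 ∧ g b = none ∧
      g c = some 1 := by
  obtain ⟨g, gi, gI, ga, gb⟩ := pair he hab
  have hgc : g c ≠ none := fun h => hbc (gi (gb.trans h.symm))
  obtain ⟨γ, hγ⟩ := Option.ne_none_iff_exists'.1 hgc
  have hγ0 : γ ≠ 0 := by
    rintro rfl
    exact hac (gi (ga.trans hγ.symm))
  refine ⟨fun x => scP γ⁻¹ (g x), (scP_inj _ (inv_ne_zero hγ0)).comp gi,
    (he.sc _ (inv_ne_zero hγ0)).comp gI, ?_, ?_, ?_⟩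
  · simp [ga, scP]
  · simp [gb, scP]
  · simp [hγ, scP, hγ0]

section gram

variable [Fintype F] {H : Type} [NormedAddCommGroup H] [InnerProductSpace ℂ H]

/-- The hypotheses on a Gram system. -/
structure Gram (E : Option F → Option F → H) : Prop where
  anti : ∀ a b, E b a = - E a b
  sum : ∀ a, ∑ b, E a b = 0
  inv : AllInv (fun a b c d => (inner ℂ (E a b) (E c d) : ℂ))

variable {E : Option F → Option F → H}

theorem Gram.diag (h : Gram E) (a : Option F) : E a a = 0 := by
  have := h.anti a a
  have h2 : (2 : ℂ) • E a a = 0 := by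
    rw [two_smul]
    nth_rewrite 1 [this]
    simp
  exact (smul_eq_zero.1 h2).resolve_left two_ne_zero

/-- The common squared norm. -/
noncomputable def e0 (E : Option F → Option F → H) : ℝ := ‖E (some 0) none‖ ^ 2

theorem Gram.norm_sq (h : Gram E) {a b : Option F} (hab : a ≠ b) :
    ‖E a b‖ ^ 2 = e0 E := by
  obtain ⟨g, -, gI, ga, gb⟩ := pair h.inv hab
  have := gI a b a b
  simp only [ga, gb] at this
  have h1 := inner_self_eq_norm_sq_to_K (𝕜 := ℂ) (E a b)
  have h2 := inner_self_eq_norm_sq_to_K (𝕜 := ℂ) (E (some 0) none)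
  rw [h1, h2] at this
  have h3 : ((‖E (some 0) none‖ ^ 2 : ℝ) : ℂ) = ((‖E a b‖ ^ 2 : ℝ) : ℂ) := by
    push_cast
    exact this
  exact (Complex.ofReal_injective h3).symm

theorem Gram.norm_le (h : Gram E) (a b : Option F) : ‖E a b‖ ^ 2 ≤ e0 E := by
  by_cases hab : a = b
  · subst hab
    rw [h.diag, norm_zero, e0]
    have := sq_nonneg ‖E (some 0) none‖
    nlinarith
  · exact (h.norm_sq hab).le

theorem Gram.inner_le (h : Gram E) (a b c d : Option F) :
    ‖(inner ℂ (E a b) (E c d) : ℂ)‖ ≤ e0 E := by
  have h1 := norm_inner_le_norm (𝕜 := ℂ) (E a b) (E c d)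
  have h2 := h.norm_le a b
  have h3 := h.norm_le c d
  nlinarith [norm_nonneg (E a b), norm_nonneg (E c d), sq_nonneg (‖E a b‖ - ‖E c d‖)]

/-- Inner products of pairs sharing one point. -/
theorem Gram.share (h : Gram E) {a b d : Option F} (hab : a ≠ b) (had : a ≠ d) (hbd : b ≠ d) :
    ((Fintype.card F : ℂ) - 1) * inner ℂ (E a b) (E a d) = - (e0 E : ℂ) := by
  have hval : ∀ a b d : Option F, a ≠ b → a ≠ d → b ≠ d →
      (inner ℂ (E a b) (E a d) : ℂ) = inner ℂ (E none (some 0)) (E none (some 1)) := by
    intro a b d hab had hbd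
    obtain ⟨g, -, gI, ga, gb, gc⟩ := triple h.inv (Ne.symm hab) hbd had
    have := gI a b a d
    simp only [ga, gb, gc] at this
    exact this.symm
  rw [hval a b d hab had hbd]
  have hs : (inner ℂ (E none (some 0)) (∑ x, E none x) : ℂ) = 0 := by
    rw [h.sum]; simp
  rw [inner_sum, Fintype.sum_option] at hs
  simp only [h.diag, inner_zero_right, zero_add] at hs
  rw [← Finset.add_sum_erase _ _ (Finset.mem_univ (0 : F))] at hs
  have h2 : ∑ x ∈ Finset.univ.erase (0 : F), (inner ℂ (E none (some 0)) (E none (some x)) : ℂ) =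
      ((Fintype.card F : ℂ) - 1) * inner ℂ (E none (some 0)) (E none (some 1)) := by
    rw [Finset.sum_congr rfl (g := fun _ => inner ℂ (E none (some 0)) (E none (some 1)))]
    · rw [Finset.sum_const, Finset.card_erase_of_mem (Finset.mem_univ _), Finset.card_univ,
        nsmul_eq_mul, Nat.cast_sub Fintype.card_pos]
      simp
    · intro x hx
      apply hval _ _ _ (by simp) (by simp)
      intro e
      exact (Finset.mem_erase.1 hx).1 (by simpa using e.symm)
  rw [h2, inner_self_eq_norm_sq_to_K] at hs
  have h3 : ‖E none (some 0)‖ ^ 2 = e0 E := h.norm_sq (by simp)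
  have h4 : ((‖E none (some 0)‖ : ℂ)) ^ 2 = (e0 E : ℂ) := by
    rw [← h3]; push_cast; rfl
  have h5 : ((‖E none (some 0)‖ : ℂ)) ^ 2 +
      ((Fintype.card F : ℂ) - 1) * inner ℂ (E none (some 0)) (E none (some 1)) = 0 := hs
  rw [h4] at h5
  linear_combination h5

end gram

end Pool.Agent.H15ST
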