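import Pool.Agent.H15ST.Gram

set_option autoImplicit false
set_option linter.unusedSectionVars false

namespace Pool.Agent.H15ST

open Finset

variable {F : Type} [Field F] [DecidableEq F]
variable [Fintype F] {H : Type} [NormedAddCommGroup H] [InnerProductSpace ℂ H]
variable {E : Option F → Option F → H}

theorem Gram.e0_nonneg (E : Option F → Option F → H) : 0 ≤ e0 E := sq_nonneg _

/-- Bessel inequality for the star at infinity. -/
theorem Gram.bessel (h : Gram E) (c d : Option F) :
    ((Fintype.card F : ℝ) - 1) *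
      ∑ k : F, ‖(inner ℂ (E none (some k)) (E c d) : ℂ)‖ ^ 2 ≤
      (Fintype.card F : ℝ) * (e0 E) ^ 2 := by
  set α : F → ℂ := fun k => inner ℂ (E none (some k)) (E c d) with hα
  set A : ℝ := ∑ k : F, ‖α k‖ ^ 2 with hA
  have hq : (2 : ℝ) ≤ Fintype.card F := by
    exact_mod_cast Fintype.one_lt_card_iff.2 ⟨0, 1, zero_ne_one⟩
  have hsum : ∑ k : F, α k = 0 := by
    have hs : (inner ℂ (∑ x, E none x) (E c d) : ℂ) = 0 := by
      rw [h.sum]; simp
    rw [sum_inner, Fintype.sum_option] at hs
    simpa [h.diag] using hs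
  set y : H := ∑ k : F, α k • E none (some k) with hy
  have hyE : (inner ℂ y (E c d) : ℂ) = (A : ℂ) := by
    rw [hy, sum_inner, hA]
    push_cast
    apply Finset.sum_congr rfl
    intro k _
    rw [inner_smul_left]
    change (starRingEnd ℂ) (α k) * α k = _
    rw [mul_comm, Complex.mul_conj, Complex.normSq_eq_norm_sq]
    push_cast; rfl
  have hgram : ∀ k l : F, ((Fintype.card F : ℂ) - 1) *
      (inner ℂ (E none (some k)) (E none (some l)) : ℂ) =
      if k = l then ((Fintype.card F : ℂ) - 1) * (e0 E : ℂ) else - (e0 E : ℂ) := by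
    intro k l
    split_ifs with hkl
    · subst hkl
      rw [inner_self_eq_norm_sq_to_K]
      have h3 : ‖E none (some k)‖ ^ 2 = e0 E := h.norm_sq (by simp)
      have h4 : ((‖E none (some k)‖ : ℂ)) ^ 2 = (e0 E : ℂ) := by
        rw [← h3]; push_cast; rfl
      have h5 : ((Fintype.card F : ℂ) - 1) * ((‖E none (some k)‖ : ℂ)) ^ 2 =
        ((Fintype.card F : ℂ) - 1) * (e0 E : ℂ) := by rw [h4]
      exact h5
    · exact h.share (by simp) (by simp) (by simpa using hkl)
  -- the norm of `y`
  have hyy : ((Fintype.card F : ℂ) - 1) * (inner ℂ y y : ℂ) =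
      (Fintype.card F : ℂ) * (e0 E : ℂ) * (A : ℂ) := by
    have h1 : (inner ℂ y y : ℂ) = ∑ k : F, ∑ l : F, (starRingEnd ℂ) (α k) * α l *
        (inner ℂ (E none (some k)) (E none (some l)) : ℂ) := by
      rw [hy, sum_inner]
      apply Finset.sum_congr rfl
      intro k _
      rw [inner_sum]
      apply Finset.sum_congr rfl
      intro l _
      rw [inner_smul_left, inner_smul_right]
      ring
    rw [h1, Finset.mul_sum]
    have h2 : ∀ k : F, ((Fintype.card F : ℂ) - 1) * ∑ l : F, (starRingEnd ℂ) (α k) * α l *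
        (inner ℂ (E none (some k)) (E none (some l)) : ℂ) =
        (Fintype.card F : ℂ) * (e0 E : ℂ) * ((‖α k‖ ^ 2 : ℝ) : ℂ) := by
      intro k
      have h3 : ∀ l : F, ((Fintype.card F : ℂ) - 1) * ((starRingEnd ℂ) (α k) * α l *
          (inner ℂ (E none (some k)) (E none (some l)) : ℂ)) =
          (if k = l then (Fintype.card F : ℂ) * (e0 E : ℂ) * ((starRingEnd ℂ) (α k) * α l)
            else 0) - (starRingEnd ℂ) (α k) * (e0 E : ℂ) * α l := by
        intro l
        have := hgram k l
        split_ifs at this ⊢ with hkl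
        · linear_combination ((starRingEnd ℂ) (α k) * α l) * this
        · linear_combination ((starRingEnd ℂ) (α k) * α l) * this
      rw [Finset.mul_sum, Finset.sum_congr rfl fun l _ => h3 l, Finset.sum_sub_distrib,
        Finset.sum_ite_eq, ← Finset.mul_sum, hsum]
      simp only [Finset.mem_univ, if_true, mul_zero, sub_zero]
      rw [mul_comm ((starRingEnd ℂ) (α k)), Complex.mul_conj, Complex.normSq_eq_norm_sq]
    rw [Finset.sum_congr rfl fun k _ => h2 k, ← Finset.mul_sum, hA]
    push_cast; rfl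
  have hyy' : ((Fintype.card F : ℝ) - 1) * ‖y‖ ^ 2 = (Fintype.card F : ℝ) * e0 E * A := by
    have h1 := inner_self_eq_norm_sq_to_K (𝕜 := ℂ) y
    have h2 : ((Fintype.card F : ℂ) - 1) * ((‖y‖ : ℂ)) ^ 2 =
      (Fintype.card F : ℂ) * (e0 E : ℂ) * (A : ℂ) := by
      rw [← hyy]; rw [h1]; rfl
    exact_mod_cast h2
  -- Cauchy-Schwarz
  have hA0 : 0 ≤ A := Finset.sum_nonneg fun _ _ => sq_nonneg _
  have hcs : A ^ 2 ≤ ‖y‖ ^ 2 * e0 E := by
    have h1 := norm_inner_le_norm (𝕜 := ℂ) y (E c d)
    rw [hyE, Complex.norm_real, Real.norm_of_nonneg hA0] at h1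
    have h2 : A ^ 2 ≤ (‖y‖ * ‖E c d‖) ^ 2 := by
      apply pow_le_pow_left₀ hA0 h1
    rw [mul_pow] at h2
    exact h2.trans (mul_le_mul_of_nonneg_left (h.norm_le c d) (sq_nonneg _))
  have hfin : (((Fintype.card F : ℝ) - 1) * A) * A ≤ ((Fintype.card F : ℝ) * (e0 E) ^ 2) * A := by
    have h1 : ((Fintype.card F : ℝ) - 1) * A ^ 2 ≤
        ((Fintype.card F : ℝ) - 1) * (‖y‖ ^ 2 * e0 E) :=
      mul_le_mul_of_nonneg_left hcs (by linarith)
    have h2 : ((Fintype.card F : ℝ) - 1) * (‖y‖ ^ 2 * e0 E) =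
        ((Fintype.card F : ℝ) * (e0 E) ^ 2) * A := by
      rw [← mul_assoc, hyy']; ring
    rw [h2] at h1
    calc (((Fintype.card F : ℝ) - 1) * A) * A = ((Fintype.card F : ℝ) - 1) * A ^ 2 := by ring
      _ ≤ _ := h1
  rcases hA0.eq_or_lt with h0 | h0
  · rw [← h0]
    have := sq_nonneg (e0 E)
    nlinarith
  · exact le_of_mul_le_mul_right hfin h0

/-- The crossratio map. -/
def kap (l s : F) : F := l * (1 - s) ^ 2 / (s * (1 - l) ^ 2)

/-- Reduction of the generic inner products to the star at infinity. -/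
theorem Gram.generic (h : Gram E) {l s : F} (hl0 : l ≠ 0) (hl1 : l ≠ 1) (hs0 : s ≠ 0)
    (hs1 : s ≠ 1) (hsl' : s * l ≠ 1) :
    (inner ℂ (E (some s) (some (s * l))) (E (some 1) (some l)) : ℂ) =
      - inner ℂ (E none (some (kap l s))) (E (some 0) (some 1)) := by
  have hl0' : l - s * l ≠ 0 := by
    intro h'
    have : l * (1 - s) = 0 := by linear_combination h'
    rcases mul_eq_zero.1 this with h' | h'
    · exact hl0 h'
    · exact hs1 (by linear_combination -h')
  have hl1' : (1 : F) - l ≠ 0 := fun h' => hl1 (by linear_combination -h')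
  have hl1'' : l - 1 ≠ 0 := fun h' => hl1 (by linear_combination h')
  have hsl2 : s * l - 1 ≠ 0 := fun h' => hsl' (by linear_combination h')
  have h1s : (1 : F) - s ≠ 0 := fun h' => hs1 (by linear_combination -h')
  have h1sl : (1 : F) - s * l ≠ 0 := fun h' => hsl' (by linear_combination -h')
  have hsm : s - s * l ≠ 0 := by
    have : s - s * l = s * (1 - l) := by ring
    rw [this]
    exact mul_ne_zero hs0 hl1'
  set μ : F := l * (1 - s) / (l - 1) with hμ
  have hμ0 : μ ≠ 0 := div_ne_zero (mul_ne_zero hl0 h1s) hl1''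
  -- the transformation
  let g : Option F → Option F := fun x =>
    scP μ (trP 1 (scP (s * l - 1) (inP (trP (-(s * l)) x))))
  have hgI : Inv (fun a b c d => (inner ℂ (E a b) (E c d) : ℂ)) g :=
    (h.inv.sc μ hμ0).comp ((h.inv.tr 1).comp ((h.inv.sc _ hsl2).comp
      (h.inv.inv.comp (h.inv.tr _))))
  have gsl : g (some (s * l)) = none := by
    simp [g, trP, scP, inP]
  have g1 : g (some 1) = some 0 := by
    have e : (1 : F) + -(s * l) ≠ 0 := by rw [← sub_eq_add_neg]; exact h1sl
    simp only [g, trP, scP, inP, if_neg e, Option.some.injEq]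
    have : (s * l - 1) * (1 + -(s * l))⁻¹ = -1 := by
      field_simp
      ring
    rw [this]; ring
  have gl : g (some l) = some 1 := by
    have e : l + -(s * l) ≠ 0 := by rw [← sub_eq_add_neg]; exact hl0'
    simp only [g, trP, scP, inP, if_neg e, Option.some.injEq, hμ]
    have e' : l + -(s * l) = l * (1 - s) := by ring
    rw [e']
    field_simp
    ring
  have gs : g (some s) = some (kap l s) := by
    have e : s + -(s * l) ≠ 0 := by rw [← sub_eq_add_neg]; exact hsm
    simp only [g, trP, scP, inP, if_neg e, Option.some.injEq, hμ, kap]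
    have e' : s + -(s * l) = s * (1 - l) := by ring
    rw [e', show l - 1 = -(1 - l) by ring]
    field_simp
    ring
  have := hgI (some s) (some (s * l)) (some 1) (some l)
  simp only [gsl, g1, gl, gs] at this
  rw [← this, h.anti none, inner_neg_left]

end Pool.Agent.H15ST
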