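import Pool.Agent.H15ST.Gram2

set_option autoImplicit false
set_option linter.unusedSectionVars false

namespace Pool.Agent.H15ST

open Finset

variable {F : Type} [Field F] [DecidableEq F]
variable [Fintype F] {H : Type} [NormedAddCommGroup H] [InnerProductSpace ℂ H]
variable {E : Option F → Option F → H}

theorem two_le_card (F : Type) [Field F] [Fintype F] : (2 : ℝ) ≤ Fintype.card F := by
  exact_mod_cast Fintype.one_lt_card_iff.2 ⟨0, 1, zero_ne_one⟩

theorem card_units' : ((Fintype.card Fˣ : ℕ) : ℝ) = (Fintype.card F : ℝ) - 1 := by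
  rw [Fintype.card_units, Nat.cast_sub Fintype.card_pos]
  simp

theorem Gram.avg (h : Gram E) (l : F) :
    ((Fintype.card F : ℝ) - 1) *
      ‖(inner ℂ (E (some 0) none) (E (some 1) (some l)) : ℂ)‖ ^ 2 ≤
      e0 E * ∑ s : Fˣ, ‖(inner ℂ (E (some (s : F)) (some ((s : F) * l)))
        (E (some 1) (some l)) : ℂ)‖ := by
  set Z : H := ∑ s : Fˣ, E (some (s : F)) (some ((s : F) * l)) with hZ
  set w : ℂ := inner ℂ (E (some 0) none) (E (some 1) (some l)) with hw
  set B : ℝ := ∑ s : Fˣ, ‖(inner ℂ (E (some (s : F)) (some ((s : F) * l)))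
        (E (some 1) (some l)) : ℂ)‖ with hB
  have hq := two_le_card F
  have hcard := card_units' (F := F)
  have h1 : (inner ℂ (E (some 0) none) Z : ℂ) = (Fintype.card Fˣ : ℂ) * w := by
    rw [hZ, inner_sum, Finset.sum_congr rfl (g := fun _ => w)]
    · simp
    · intro s _
      have := h.inv.sc (s : F) s.ne_zero (some 0) none (some 1) (some l)
      simpa [scP] using this
  have h2 : (inner ℂ Z Z : ℂ) = (Fintype.card Fˣ : ℂ) *
      ∑ s : Fˣ, inner ℂ (E (some (s : F)) (some ((s : F) * l))) (E (some 1) (some l)) := by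
    have e1 : (inner ℂ Z Z : ℂ) = ∑ t : Fˣ, inner ℂ Z (E (some (t : F)) (some ((t : F) * l))) := by
      rw [← inner_sum]
    rw [e1, Finset.sum_congr rfl (g := fun _ => ∑ s : Fˣ,
      (inner ℂ (E (some (s : F)) (some ((s : F) * l))) (E (some 1) (some l)) : ℂ))]
    · simp
    · intro t _
      rw [hZ, sum_inner, ← Equiv.sum_comp (Equiv.mulLeft t)]
      apply Finset.sum_congr rfl
      intro s _
      have := h.inv.sc (t : F) t.ne_zero (some (s : F)) (some ((s : F) * l)) (some 1) (some l)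
      simpa [scP, mul_assoc] using this
  have hZn : ‖Z‖ ^ 2 ≤ ((Fintype.card F : ℝ) - 1) * B := by
    have e1 := inner_self_eq_norm_sq_to_K (𝕜 := ℂ) Z
    have e2 : ‖(inner ℂ Z Z : ℂ)‖ = ‖Z‖ ^ 2 := by
      rw [e1]; simp
    rw [← e2, h2, norm_mul, Complex.norm_natCast, hcard]
    exact mul_le_mul_of_nonneg_left (norm_sum_le _ _) (by linarith)
  have hcs := norm_inner_le_norm (𝕜 := ℂ) (E (some 0) none) Z
  rw [h1, norm_mul, Complex.norm_natCast, hcard] at hcs
  have hsq : (((Fintype.card F : ℝ) - 1) * ‖w‖) ^ 2 ≤ (‖E (some 0) none‖ * ‖Z‖) ^ 2 :=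
    pow_le_pow_left₀ (mul_nonneg (by linarith) (norm_nonneg _)) hcs 2
  rw [mul_pow, mul_pow] at hsq
  have h3 : ((Fintype.card F : ℝ) - 1) ^ 2 * ‖w‖ ^ 2 ≤
      e0 E * (((Fintype.card F : ℝ) - 1) * B) :=
    hsq.trans (mul_le_mul_of_nonneg_left hZn (Gram.e0_nonneg E))
  have hpos : (0 : ℝ) < (Fintype.card F : ℝ) - 1 := by linarith
  have h4 : ((Fintype.card F : ℝ) - 1) * (((Fintype.card F : ℝ) - 1) * ‖w‖ ^ 2) ≤
      ((Fintype.card F : ℝ) - 1) * (e0 E * B) := by nlinarith
  exact le_of_mul_le_mul_left h4 hpos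

theorem kap_fibre {l s t : F} (hl0 : l ≠ 0) (hl1 : l ≠ 1) (hs : s ≠ 0) (ht : t ≠ 0)
    (h : kap l s = kap l t) : s = t ∨ s = t⁻¹ := by
  have hl1' : (1 : F) - l ≠ 0 := fun h' => hl1 (by linear_combination -h')
  unfold kap at h
  rw [div_eq_div_iff (mul_ne_zero hs (pow_ne_zero _ hl1')) (mul_ne_zero ht (pow_ne_zero _ hl1'))]
    at h
  have h2 : (l * (1 - l) ^ 2) * ((s - t) * (s * t - 1)) = 0 := by linear_combination h
  rcases mul_eq_zero.1 h2 with h3 | h3
  · exact absurd h3 (mul_ne_zero hl0 (pow_ne_zero _ hl1'))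
  · rcases mul_eq_zero.1 h3 with h4 | h4
    · left; exact sub_eq_zero.1 h4
    · right
      field_simp
      linear_combination h4

theorem Gram.sum_le (h : Gram E) {l : F} (hl0 : l ≠ 0) (hl1 : l ≠ 1) :
    ∑ s : Fˣ, ‖(inner ℂ (E (some (s : F)) (some ((s : F) * l)))
        (E (some 1) (some l)) : ℂ)‖ ≤ e0 E * (2 + 2 * Real.sqrt (Fintype.card F)) := by
  set f : F → ℝ := fun k => ‖(inner ℂ (E none (some k)) (E (some 0) (some 1)) : ℂ)‖ with hf
  have hq := two_le_card F
  have hcard := card_units' (F := F)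
  have he := Gram.e0_nonneg E
  have hf2 : ∑ k : F, f k ^ 2 ≤ 2 * (e0 E) ^ 2 := by
    have h1 := h.bessel (some 0) (some 1)
    have h2 : 0 ≤ ∑ k : F, f k ^ 2 := Finset.sum_nonneg fun _ _ => sq_nonneg _
    have h3 : ((Fintype.card F : ℝ) - 1) * ∑ k : F, f k ^ 2 ≤
      (Fintype.card F : ℝ) * (e0 E) ^ 2 := h1
    have h4 : ((Fintype.card F : ℝ) - 1) * ∑ k : F, f k ^ 2 ≤
        ((Fintype.card F : ℝ) - 1) * (2 * (e0 E) ^ 2) := by
      nlinarith [sq_nonneg (e0 E)]
    exact le_of_mul_le_mul_left h4 (by linarith)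
  -- split the sum
  let bad : Finset Fˣ := Finset.univ.filter fun s => (s : F) = 1 ∨ (s : F) * l = 1
  let good : Finset Fˣ := Finset.univ.filter fun s => ¬ ((s : F) = 1 ∨ (s : F) * l = 1)
  rw [← Finset.sum_filter_add_sum_filter_not Finset.univ
    (fun s : Fˣ => (s : F) = 1 ∨ (s : F) * l = 1)]
  change ∑ s ∈ bad, _ + ∑ s ∈ good, _ ≤ _
  have hbad : ∑ s ∈ bad, ‖(inner ℂ (E (some (s : F)) (some ((s : F) * l)))
        (E (some 1) (some l)) : ℂ)‖ ≤ 2 * e0 E := by
    have hc : bad.card ≤ 2 := by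
      have : bad ⊆ {1, (Units.mk0 l hl0)⁻¹} := by
        intro s hs
        rw [Finset.mem_insert, Finset.mem_singleton]
        rcases (Finset.mem_filter.1 hs).2 with h' | h'
        · left; exact Units.ext h'
        · right
          apply Units.ext
          rw [Units.val_inv_eq_inv_val, Units.val_mk0]
          exact eq_inv_of_mul_eq_one_left h'
      exact (Finset.card_le_card this).trans Finset.card_le_two
    calc _ ≤ ∑ s ∈ bad, e0 E := Finset.sum_le_sum fun s _ => h.inner_le _ _ _ _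
      _ = bad.card * e0 E := by simp
      _ ≤ 2 * e0 E := by
        apply mul_le_mul_of_nonneg_right _ he
        exact_mod_cast hc
  have hgood : ∑ s ∈ good, ‖(inner ℂ (E (some (s : F)) (some ((s : F) * l)))
        (E (some 1) (some l)) : ℂ)‖ ≤ 2 * e0 E * Real.sqrt (Fintype.card F) := by
    have e1 : ∑ s ∈ good, ‖(inner ℂ (E (some (s : F)) (some ((s : F) * l)))
        (E (some 1) (some l)) : ℂ)‖ = ∑ s ∈ good, f (kap l s) := by
      apply Finset.sum_congr rfl
      intro s hs
      have hs' := (Finset.mem_filter.1 hs).2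
      rw [not_or] at hs'
      rw [h.generic hl0 hl1 s.ne_zero hs'.1 hs'.2, norm_neg]
    rw [e1]
    have e2 : ∑ s ∈ good, f (kap l s) ^ 2 ≤ 2 * ∑ k : F, f k ^ 2 := by
      rw [← Finset.sum_fiberwise good (fun s : Fˣ => kap l (s : F)), Finset.mul_sum]
      apply Finset.sum_le_sum
      intro k _
      have hc : (good.filter fun s : Fˣ => kap l (s : F) = k).card ≤ 2 := by
        rcases (good.filter fun s : Fˣ => kap l (s : F) = k).eq_empty_or_nonempty with h' | ⟨t, ht⟩
        · rw [h']; simp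
        · have : (good.filter fun s : Fˣ => kap l (s : F) = k) ⊆ {t, t⁻¹} := by
            intro s hs
            have h1 := (Finset.mem_filter.1 hs).2
            have h2 := (Finset.mem_filter.1 ht).2
            rw [Finset.mem_insert, Finset.mem_singleton]
            rcases kap_fibre hl0 hl1 s.ne_zero t.ne_zero (h1.trans h2.symm) with h3 | h3
            · left; exact Units.ext h3
            · right
              apply Units.ext
              rw [Units.val_inv_eq_inv_val]
              exact h3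
          exact (Finset.card_le_card this).trans Finset.card_le_two
      calc _ = ∑ s ∈ good.filter fun s : Fˣ => kap l (s : F) = k, f k ^ 2 := by
            apply Finset.sum_congr rfl
            intro s hs
            rw [(Finset.mem_filter.1 hs).2]
        _ = ((good.filter fun s : Fˣ => kap l (s : F) = k).card : ℝ) * f k ^ 2 := by simp
        _ ≤ 2 * f k ^ 2 := by
          apply mul_le_mul_of_nonneg_right _ (sq_nonneg _)
          exact_mod_cast hc
    have e3 : (∑ s ∈ good, f (kap l s)) ^ 2 ≤ (good.card : ℝ) * ∑ s ∈ good, f (kap l s) ^ 2 :=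
      sq_sum_le_card_mul_sum_sq
    have e4 : (good.card : ℝ) ≤ Fintype.card F := by
      have : (good.card : ℝ) ≤ Fintype.card Fˣ := by
        exact_mod_cast Finset.card_le_univ good
      linarith
    have e5 : (∑ s ∈ good, f (kap l s)) ^ 2 ≤ (2 * e0 E * Real.sqrt (Fintype.card F)) ^ 2 := by
      have hsq : Real.sqrt (Fintype.card F) ^ 2 = Fintype.card F := Real.sq_sqrt (by linarith)
      rw [mul_pow, hsq]
      have e6 : 0 ≤ ∑ s ∈ good, f (kap l s) ^ 2 := Finset.sum_nonneg fun _ _ => sq_nonneg _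
      calc _ ≤ (good.card : ℝ) * ∑ s ∈ good, f (kap l s) ^ 2 := e3
        _ ≤ (Fintype.card F : ℝ) * ∑ s ∈ good, f (kap l s) ^ 2 :=
          mul_le_mul_of_nonneg_right e4 e6
        _ ≤ (Fintype.card F : ℝ) * (2 * (2 * (e0 E) ^ 2)) := by
          apply mul_le_mul_of_nonneg_left _ (by linarith)
          linarith
        _ = _ := by ring
    exact le_of_sq_le_sq e5 (by positivity)
  calc _ ≤ 2 * e0 E + 2 * e0 E * Real.sqrt (Fintype.card F) := add_le_add hbad hgood
    _ = _ := by ring

end Pool.Agent.H15ST
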