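import Pool.Agent.H15ST.Gram3

set_option autoImplicit false
set_option linter.unusedSectionVars false

namespace Pool.Agent.H15ST

open Finset

variable {F : Type} [Field F] [DecidableEq F]
variable [Fintype F] {H : Type} [NormedAddCommGroup H] [InnerProductSpace ℂ H]
variable {E : Option F → Option F → H}

/-- Four distinct points. -/
theorem Gram.distinct (h : Gram E) {a b c d : Option F} (hab : a ≠ b) (hac : a ≠ c)
    (had : a ≠ d) (hbc : b ≠ c) (hbd : b ≠ d) (hcd : c ≠ d) :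
    ((Fintype.card F : ℝ) - 1) * ‖(inner ℂ (E a b) (E c d) : ℂ)‖ ^ 2 ≤
      (e0 E) ^ 2 * (2 + 2 * Real.sqrt (Fintype.card F)) := by
  obtain ⟨g, gi, gI, ga, gb, gc⟩ := triple h.inv hab hac hbc
  have hgd : g d ≠ none := fun h' => hbd (gi (gb.trans h'.symm))
  obtain ⟨l, hl⟩ := Option.ne_none_iff_exists'.1 hgd
  have hl0 : l ≠ 0 := by
    rintro rfl
    exact had (gi (ga.trans hl.symm))
  have hl1 : l ≠ 1 := by
    rintro rfl
    exact hcd (gi (gc.trans hl.symm))
  have := gI a b c d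
  simp only [ga, gb, gc, hl] at this
  rw [← this]
  have h1 := h.avg l
  have h2 := h.sum_le hl0 hl1
  have h3 := mul_le_mul_of_nonneg_left h2 (Gram.e0_nonneg E)
  calc _ ≤ _ := h1
    _ ≤ _ := h3
    _ = _ := by ring

theorem Gram.share_le (h : Gram E) {a b d : Option F} (hab : a ≠ b) (had : a ≠ d)
    (hbd : b ≠ d) :
    ((Fintype.card F : ℝ) - 1) * ‖(inner ℂ (E a b) (E a d) : ℂ)‖ ^ 2 ≤
      (e0 E) ^ 2 * (2 + 2 * Real.sqrt (Fintype.card F)) := by
  have hq := two_le_card F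
  have h1 := congrArg norm (h.share hab had hbd)
  rw [norm_mul, norm_neg, Complex.norm_real, Real.norm_of_nonneg (Gram.e0_nonneg E)] at h1
  have h2 : ‖((Fintype.card F : ℂ) - 1)‖ = (Fintype.card F : ℝ) - 1 := by
    have : ((Fintype.card F : ℂ) - 1) = (((Fintype.card F : ℝ) - 1 : ℝ) : ℂ) := by push_cast; rfl
    rw [this, Complex.norm_real, Real.norm_of_nonneg (by linarith)]
  rw [h2] at h1
  set x := ‖(inner ℂ (E a b) (E a d) : ℂ)‖ with hx
  have hx0 : 0 ≤ x := norm_nonneg _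
  have hxe : x ≤ e0 E := h.inner_le _ _ _ _
  have h3 : ((Fintype.card F : ℝ) - 1) * x ^ 2 = e0 E * x := by rw [← h1]; ring
  rw [h3]
  have h4 := Real.sqrt_nonneg (Fintype.card F : ℝ)
  have h5 := Gram.e0_nonneg E
  have h6 : e0 E * x ≤ e0 E ^ 2 := by nlinarith
  nlinarith [mul_nonneg (sq_nonneg (e0 E)) h4, sq_nonneg (e0 E)]

theorem Gram.off (h : Gram E) {a b c d : Option F} (hab : a ≠ b) (h1 : ¬ (c = a ∧ d = b))
    (h2 : ¬ (c = b ∧ d = a)) :
    ((Fintype.card F : ℝ) - 1) * ‖(inner ℂ (E a b) (E c d) : ℂ)‖ ^ 2 ≤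
      (e0 E) ^ 2 * (2 + 2 * Real.sqrt (Fintype.card F)) := by
  have hpos : 0 ≤ (e0 E) ^ 2 * (2 + 2 * Real.sqrt (Fintype.card F)) := by positivity
  by_cases hcd : c = d
  · subst hcd
    rw [h.diag, inner_zero_right, norm_zero]
    simpa using hpos
  by_cases hac : a = c
  · subst hac
    have hbd : b ≠ d := fun e => h1 ⟨rfl, e.symm⟩
    exact h.share_le hab hcd hbd
  by_cases had : a = d
  · subst had
    have hbc : b ≠ c := fun e => h2 ⟨e.symm, rfl⟩
    rw [h.anti a c, inner_neg_right, norm_neg]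
    exact h.share_le hab hac hbc
  by_cases hbc : b = c
  · subst hbc
    rw [h.anti b a, inner_neg_left, norm_neg]
    exact h.share_le (Ne.symm hab) hcd had
  by_cases hbd : b = d
  · subst hbd
    rw [h.anti b a, h.anti b c, inner_neg_left, inner_neg_right, neg_neg]
    exact h.share_le (Ne.symm hab) hbc hac
  exact h.distinct hab hac had hbc hbd hcd

theorem Gram.main (h : Gram E) (he : E (some 0) none ≠ 0) (S : Finset (Option F))
    (hS : (S.card : ℝ) ^ 4 * (2 + 2 * Real.sqrt (Fintype.card F)) <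
      4 * ((Fintype.card F : ℝ) - 1))
    (v : Option F → Option F → ℂ) (hanti : ∀ a b, v b a = - v a b)
    (hsupp : ∀ a b, v a b ≠ 0 → a ∈ S ∧ b ∈ S)
    (hsum : ∑ a, ∑ b, v a b • E a b = 0) : ∀ a b, v a b = 0 := by
  by_contra hcon
  push Not at hcon
  obtain ⟨a1, b1, hab1⟩ := hcon
  have hne : (S ×ˢ S).Nonempty := ⟨(a1, b1), Finset.mem_product.2 (hsupp _ _ hab1)⟩
  obtain ⟨⟨a0, b0⟩, hmem, hmax⟩ := Finset.exists_max_image (S ×ˢ S) (fun x => ‖v x.1 x.2‖) hne
  set m := ‖v a0 b0‖ with hm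
  have hmpos : 0 < m := lt_of_lt_of_le (norm_pos_iff.2 hab1)
    (hmax (a1, b1) (Finset.mem_product.2 (hsupp _ _ hab1)))
  have hmle : ∀ a b, ‖v a b‖ ≤ m := by
    intro a b
    by_cases h0 : v a b = 0
    · rw [h0, norm_zero]; exact hmpos.le
    · exact hmax (a, b) (Finset.mem_product.2 (hsupp _ _ h0))
  have hvdiag : ∀ a, v a a = 0 := by
    intro a
    have := hanti a a
    linear_combination (1 / 2) * this
  have hab : a0 ≠ b0 := by
    rintro rfl
    rw [hm, hvdiag, norm_zero] at hmpos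
    exact lt_irrefl _ hmpos
  have hq := two_le_card F
  have he0 : 0 < e0 E := by
    unfold e0
    exact pow_pos (norm_pos_iff.2 he) 2
  set q1 : ℝ := (Fintype.card F : ℝ) - 1 with hq1
  have hq1pos : 0 < q1 := by rw [hq1]; linarith
  set R : ℝ := 2 + 2 * Real.sqrt (Fintype.card F) with hR
  have hRpos : 0 < R := by positivity
  set δ : ℝ := Real.sqrt (R / q1) with hδ
  have hδ2 : δ ^ 2 * q1 = R := by
    rw [hδ, Real.sq_sqrt (by positivity)]
    field_simp
  have hδ0 : 0 ≤ δ := Real.sqrt_nonneg _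
  have hSδ : (S.card : ℝ) ^ 2 * δ < 2 := by
    by_contra hcon
    push Not at hcon
    have h1 : (2 : ℝ) ^ 2 ≤ ((S.card : ℝ) ^ 2 * δ) ^ 2 := pow_le_pow_left₀ (by norm_num) hcon 2
    have h2 : ((S.card : ℝ) ^ 2 * δ) ^ 2 * q1 = (S.card : ℝ) ^ 4 * R := by
      rw [← hδ2]; ring
    nlinarith
  -- bound on off terms
  have hoff : ∀ c d, ¬ (c = a0 ∧ d = b0) → ¬ (c = b0 ∧ d = a0) →
      ‖(inner ℂ (E a0 b0) (E c d) : ℂ)‖ ≤ e0 E * δ := by
    intro c d h1 h2
    have h3 := h.off hab h1 h2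
    have h4 : ‖(inner ℂ (E a0 b0) (E c d) : ℂ)‖ ^ 2 ≤ (e0 E * δ) ^ 2 := by
      have h5 : q1 * ‖(inner ℂ (E a0 b0) (E c d) : ℂ)‖ ^ 2 ≤ q1 * (e0 E * δ) ^ 2 := by
        calc _ ≤ (e0 E) ^ 2 * R := h3
          _ = _ := by rw [← hδ2]; ring
      exact le_of_mul_le_mul_left h5 hq1pos
    exact le_of_sq_le_sq h4 (mul_nonneg he0.le hδ0)
  -- expand the sum
  let T : Option F × Option F → ℂ := fun x => v x.1 x.2 * inner ℂ (E a0 b0) (E x.1 x.2)
  have hT : ∑ x ∈ S ×ˢ S, T x = 0 := by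
    have h1 : (inner ℂ (E a0 b0) (∑ a, ∑ b, v a b • E a b) : ℂ) = 0 := by
      rw [hsum, inner_zero_right]
    rw [inner_sum] at h1
    have h2 : ∑ a, (inner ℂ (E a0 b0) (∑ b, v a b • E a b) : ℂ) =
        ∑ x : Option F × Option F, T x := by
      rw [Fintype.sum_prod_type]
      apply Finset.sum_congr rfl
      intro a _
      rw [inner_sum]
      apply Finset.sum_congr rfl
      intro b _
      rw [inner_smul_right]
    rw [h2] at h1
    rw [← h1]
    apply Finset.sum_subset (Finset.subset_univ _)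
    intro x _ hx
    by_contra hne
    apply hx
    have : v x.1 x.2 ≠ 0 := fun h0 => hne (by simp [T, h0])
    exact Finset.mem_product.2 (hsupp _ _ this)
  have hmem' : (b0, a0) ∈ (S ×ˢ S).erase (a0, b0) := by
    refine Finset.mem_erase.2 ⟨?_, ?_⟩
    · intro e
      exact hab (congrArg Prod.snd e)
    · have := Finset.mem_product.1 hmem
      exact Finset.mem_product.2 ⟨this.2, this.1⟩
  rw [← Finset.add_sum_erase _ _ hmem, ← Finset.add_sum_erase _ _ hmem'] at hT
  have hnorm : (inner ℂ (E a0 b0) (E a0 b0) : ℂ) = (e0 E : ℂ) := by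
    rw [inner_self_eq_norm_sq_to_K]
    have h3 : ‖E a0 b0‖ ^ 2 = e0 E := h.norm_sq hab
    have h4 : ((‖E a0 b0‖ : ℂ)) ^ 2 = (e0 E : ℂ) := by
      rw [← h3]; push_cast; rfl
    exact h4
  have hT1 : T (a0, b0) = v a0 b0 * (e0 E : ℂ) := by simp only [T]; rw [hnorm]
  have hT2 : T (b0, a0) = v a0 b0 * (e0 E : ℂ) := by
    simp only [T]
    rw [hanti a0 b0, h.anti a0 b0, inner_neg_right, hnorm]; ring
  rw [hT1, hT2] at hT
  have hbound : ‖∑ x ∈ ((S ×ˢ S).erase (a0, b0)).erase (b0, a0), T x‖ ≤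
      ((S.card : ℝ) ^ 2) * (m * (e0 E * δ)) := by
    calc _ ≤ ∑ x ∈ ((S ×ˢ S).erase (a0, b0)).erase (b0, a0), m * (e0 E * δ) := by
          apply (norm_sum_le _ _).trans
          apply Finset.sum_le_sum
          rintro ⟨c, d⟩ hx
          have hx1 := Finset.mem_erase.1 hx
          have hx2 := Finset.mem_erase.1 hx1.2
          simp only [T, norm_mul]
          apply mul_le_mul (hmle _ _) _ (norm_nonneg _) hmpos.le
          apply hoff
          · rintro ⟨rfl, rfl⟩; exact hx2.1 rfl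
          · rintro ⟨rfl, rfl⟩; exact hx1.1 rfl
      _ = ((((S ×ˢ S).erase (a0, b0)).erase (b0, a0)).card : ℝ) * (m * (e0 E * δ)) := by simp
      _ ≤ _ := by
        apply mul_le_mul_of_nonneg_right _ (by positivity)
        have h1 : (((S ×ˢ S).erase (a0, b0)).erase (b0, a0)).card ≤ (S ×ˢ S).card :=
          Finset.card_le_card ((Finset.erase_subset _ _).trans (Finset.erase_subset _ _))
        rw [Finset.card_product] at h1
        calc ((((S ×ˢ S).erase (a0, b0)).erase (b0, a0)).card : ℝ) ≤ ((S.card * S.card : ℕ) : ℝ) := by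
              exact_mod_cast h1
          _ = _ := by push_cast; ring
  have heq : ‖(2 : ℂ) * (v a0 b0 * (e0 E : ℂ))‖ =
      ‖∑ x ∈ ((S ×ˢ S).erase (a0, b0)).erase (b0, a0), T x‖ := by
    have : (2 : ℂ) * (v a0 b0 * (e0 E : ℂ)) =
        - ∑ x ∈ ((S ×ˢ S).erase (a0, b0)).erase (b0, a0), T x := by linear_combination hT
    rw [this, norm_neg]
  rw [norm_mul, norm_mul, Complex.norm_real, Real.norm_of_nonneg he0.le, ← hm] at heq
  have h2n : ‖(2 : ℂ)‖ = 2 := by simp
  rw [h2n] at heq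
  rw [← heq] at hbound
  have hme : 0 < m * e0 E := mul_pos hmpos he0
  nlinarith

end Pool.Agent.H15ST
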