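import Pool.Agent.H15ST.Phi

set_option autoImplicit false
set_option linter.unusedSectionVars false

namespace Pool.Agent.H15ST

open Matrix TensorProduct Finset

/-- Elementary circulation pieces. -/
def wd {F : Type} [DecidableEq F] (a0 b0 a b : Option F) : ℤ :=
  (if a = a0 ∧ b = b0 then 1 else 0) - (if a = b0 ∧ b = a0 then 1 else 0)

theorem wd_anti {F : Type} [DecidableEq F] (a0 b0 a b : Option F) :
    wd a0 b0 b a = - wd a0 b0 a b := by
  unfold wd
  have e1 : (b = a0 ∧ a = b0) ↔ (a = b0 ∧ b = a0) := and_comm
  have e2 : (b = b0 ∧ a = a0) ↔ (a = a0 ∧ b = b0) := and_comm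
  simp only [e1, e2]
  ring

theorem wd_sum {F : Type} [DecidableEq F] [Fintype F] (a0 b0 a : Option F) :
    ∑ b, wd a0 b0 a b = (if a = a0 then 1 else 0) - (if a = b0 then 1 else 0) := by
  unfold wd
  rw [Finset.sum_sub_distrib]
  congr 1
  · by_cases h : a = a0 <;> simp [h]
  · by_cases h : a = b0 <;> simp [h]

theorem ineq_aux (c s : ℕ) (hs : s ≤ c) (q : ℝ) (hq : (((c ^ 4 + 3) ^ 2 : ℕ) : ℝ) ≤ q) :
    (s : ℝ) ^ 4 * (2 + 2 * Real.sqrt q) < 4 * (q - 1) := by
  have hc0 : (0 : ℝ) ≤ (c : ℝ) ^ 4 := by positivity
  have h1 : ((c : ℝ) ^ 4 + 3) ≤ Real.sqrt q := by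
    apply Real.le_sqrt_of_sq_le
    push_cast at hq
    exact hq
  have hq0 : 0 ≤ q := le_trans (by positivity) hq
  have h2 : Real.sqrt q ^ 2 = q := Real.sq_sqrt hq0
  have h3 : (s : ℝ) ^ 4 ≤ (c : ℝ) ^ 4 := by
    apply pow_le_pow_left₀ (Nat.cast_nonneg s)
    exact_mod_cast hs
  set t := Real.sqrt q with ht
  have ht3 : 3 ≤ t := by linarith
  have h4 : (s : ℝ) ^ 4 * (2 + 2 * t) ≤ (t - 3) * (2 + 2 * t) := by
    apply mul_le_mul_of_nonneg_right _ (by linarith)
    linarith
  rw [← h2]
  nlinarith

variable {p : ℕ} [Fact p.Prime] {k : Type*} [Field k] [CharZero k]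

theorem D_main (N : Submodule k (DD p k)) (hstab : ∀ (g : GG p), ∀ x ∈ N, ga g x ∈ N)
    (hsub : ∀ x ∈ N, Finsupp.lmapDomain k k Prod.swap x = - x ∧
      Finsupp.lmapDomain k k Prod.fst x = 0) (hne : N ≠ ⊥) :
    tri k (some (0 : KK p)) (some 1) none ∈ N := by
  classical
  obtain ⟨x, hx, hx0⟩ := Submodule.exists_mem_ne_zero_of_ne_bot hne
  -- choice of the finite field
  let T0 : Finset (KK p) := (x.support.image Prod.fst ∪ x.support.image Prod.snd).eraseNone
  let c := x.support.card
  let n := (c ^ 4 + 3) ^ 2 + T0.card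
  have hinf : Infinite (KK p) := inferInstance
  obtain ⟨T, hT0T, hTc⟩ := Infinite.exists_superset_card_eq T0 n (by simp only [n]; omega)
  let F := IntermediateField.adjoin (ZMod p) (T : Set (KK p))
  have hfd : FiniteDimensional (ZMod p) F :=
    IntermediateField.finiteDimensional_adjoin fun y _ => Algebra.IsIntegral.isIntegral y
  have hFfin : Finite F := Module.finite_of_finite (ZMod p)
  let _ : Fintype F := Fintype.ofFinite F
  have hTF : ∀ t ∈ T, t ∈ F := fun t ht => IntermediateField.subset_adjoin (ZMod p) _ ht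
  have hcardF : n ≤ Fintype.card F := by
    have h1 : Fintype.card T ≤ Fintype.card F :=
      Fintype.card_le_of_injective (fun t : T => (⟨t.1, hTF t.1 t.2⟩ : F)) (by
        intro a b h
        exact Subtype.ext (congrArg (fun z : F => z.1) h))
    rwa [Fintype.card_coe, hTc] at h1
  let ι : Option F → Option (KK p) := Option.map (fun z : F => z.1)
  have hι : Function.Injective ι := Option.map_injective Subtype.val_injective
  -- the linear map from functions on the finite line
  let J : (Option F → Option F → k) → DD p k := fun u =>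
    ∑ a, ∑ b, Finsupp.single (ι a, ι b) (u a b)
  have hJapp : ∀ (u : Option F → Option F → k) (a0 b0 : Option F),
      (J u) (ι a0, ι b0) = u a0 b0 := by
    intro u a0 b0
    simp only [J, Finsupp.finsetSum_apply]
    rw [Finset.sum_eq_single a0]
    · rw [Finset.sum_eq_single b0]
      · simp
      · intro b _ hb
        rw [Finsupp.single_apply, if_neg]
        intro e
        exact hb (hι (congrArg Prod.snd e))
      · simp
    · intro a _ ha
      apply Finset.sum_eq_zero
      intro b _
      rw [Finsupp.single_apply, if_neg]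
      intro e
      exact ha (hι (congrArg Prod.fst e))
    · simp
  have hJout : ∀ (u : Option F → Option F → k) (y : Option (KK p) × Option (KK p)),
      ¬ (∃ a b, y = (ι a, ι b)) → (J u) y = 0 := by
    intro u y hy
    simp only [J, Finsupp.finsetSum_apply]
    apply Finset.sum_eq_zero
    intro a _
    apply Finset.sum_eq_zero
    intro b _
    rw [Finsupp.single_apply, if_neg]
    intro e
    exact hy ⟨a, b, e.symm⟩
  let v : Option F → Option F → k := fun a b => x (ι a, ι b)
  have hrange : ∀ y : Option (KK p) × Option (KK p), x y ≠ 0 → ∃ a b, y = (ι a, ι b) := by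
    intro y hy
    have hy' : y ∈ x.support := Finsupp.mem_support_iff.2 hy
    have key : ∀ z : Option (KK p), z ∈ x.support.image Prod.fst ∪ x.support.image Prod.snd →
        ∃ a, z = ι a := by
      intro z hz
      cases z with
      | none => exact ⟨none, rfl⟩
      | some t =>
        have : t ∈ T := hT0T (Finset.mem_eraseNone.2 hz)
        exact ⟨some ⟨t, hTF t this⟩, rfl⟩
    obtain ⟨a, ha⟩ := key y.1 (Finset.mem_union_left _ (Finset.mem_image_of_mem _ hy'))
    obtain ⟨b, hb⟩ := key y.2 (Finset.mem_union_right _ (Finset.mem_image_of_mem _ hy'))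
    exact ⟨a, b, Prod.ext ha hb⟩
  have hJv : J v = x := by
    ext y
    by_cases hy : ∃ a b, y = (ι a, ι b)
    · obtain ⟨a, b, rfl⟩ := hy
      rw [hJapp]
    · rw [hJout v y hy]
      by_contra h0
      exact hy (hrange y (Ne.symm h0))
  have hanti : ∀ a b, v b a = - v a b := by
    intro a b
    have h1 := (hsub x hx).1
    have h2 := DFunLike.congr_fun h1 (ι b, ι a)
    rw [Finsupp.lmapDomain_apply] at h2
    have h3 : Finsupp.mapDomain Prod.swap x (ι b, ι a) = x (ι a, ι b) :=
      Finsupp.mapDomain_apply Prod.swap_injective x (ι a, ι b)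
    rw [h3] at h2
    change x (ι b, ι a) = - x (ι a, ι b)
    rw [h2, Finsupp.neg_apply, neg_neg]
  have hrow : ∀ a, ∑ b, v a b = 0 := by
    intro a0
    have h1 := (hsub x hx).2
    rw [← hJv] at h1
    have h2 := DFunLike.congr_fun h1 (ι a0)
    simp only [J, map_sum, Finsupp.lmapDomain_apply, Finsupp.mapDomain_single,
      Finsupp.finsetSum_apply, Finsupp.zero_apply] at h2
    rw [Finset.sum_eq_single a0] at h2
    · simpa using h2
    · intro a _ ha
      apply Finset.sum_eq_zero
      intro b _
      rw [Finsupp.single_apply, if_neg]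
      intro e
      exact ha (hι e)
    · simp
  let S : Finset (Option F) := Finset.univ.filter fun a => ∃ b, v a b ≠ 0
  have hSc : S.card ≤ c := by
    rw [← Finset.card_image_of_injective S hι]
    apply (Finset.card_le_card _).trans (Finset.card_image_le (s := x.support) (f := Prod.fst))
    intro z hz
    obtain ⟨a, ha, rfl⟩ := Finset.mem_image.1 hz
    obtain ⟨b, hb⟩ := (Finset.mem_filter.1 ha).2
    exact Finset.mem_image.2 ⟨(ι a, ι b), Finsupp.mem_support_iff.2 hb, rfl⟩
  have hsuppS : ∀ a b, v a b ≠ 0 → a ∈ S ∧ b ∈ S := by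
    intro a b hab
    refine ⟨Finset.mem_filter.2 ⟨Finset.mem_univ _, b, hab⟩,
      Finset.mem_filter.2 ⟨Finset.mem_univ _, a, ?_⟩⟩
    rw [hanti a b]
    exact neg_ne_zero.2 hab
  have hineq : (S.card : ℝ) ^ 4 * (2 + 2 * Real.sqrt (Fintype.card F)) <
      4 * ((Fintype.card F : ℝ) - 1) := by
    apply ineq_aux c S.card hSc
    have : (c ^ 4 + 3) ^ 2 ≤ Fintype.card F := by
      have := hcardF
      simp only [n] at this
      omega
    exact_mod_cast this
  have hvne : ∃ a b, v a b ≠ 0 := by
    by_contra hcon
    push Not at hcon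
    apply hx0
    ext y
    by_contra h0
    obtain ⟨a, b, rfl⟩ := hrange y h0
    exact h0 (hcon a b)
  -- words
  have hword : ∀ g, Word g → ∃ h : GG p, J (fun a b => v (g a) (g b)) = ga h x := by
    intro g hg
    induction hg with
    | id => exact ⟨1, by rw [ga_one]; exact hJv⟩
    | comp g t hg ht ih =>
      obtain ⟨h, hh⟩ := ih
      obtain ⟨tt, htt⟩ : ∃ tt : GG p, ∀ a, mob tt (ι a) = ι (t a) := by
        rcases ht with ⟨b, hb⟩ | ⟨a, ha, ht⟩ | ht
        · obtain ⟨tt, htt⟩ := lift_tr (b : KK p)
          refine ⟨tt, fun y => ?_⟩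
          rw [htt, hb]
          cases y <;> rfl
        · obtain ⟨tt, htt⟩ := lift_sc (a : KK p) (fun h0 => ha (Subtype.ext h0))
          refine ⟨tt, fun y => ?_⟩
          rw [htt, ht]
          cases y <;> rfl
        · obtain ⟨tt, htt⟩ := lift_in (K := KK p)
          refine ⟨tt, fun y => ?_⟩
          rw [htt, ht]
          cases y with
          | none => rfl
          | some z =>
            by_cases hz : z = 0
            · subst hz
              simp [ι, inP]
            · have hz' : (z : KK p) ≠ 0 := fun h0 => hz (Subtype.ext h0)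
              simp [ι, inP, hz]
      refine ⟨tt⁻¹ * h, ?_⟩
      rw [ga_mul, ← hh]
      simp only [J, map_sum, ga_single]
      conv_rhs => rw [← Equiv.sum_comp t]
      apply Finset.sum_congr rfl
      intro a _
      conv_rhs => rw [← Equiv.sum_comp t]
      apply Finset.sum_congr rfl
      intro b _
      rw [← htt a, ← htt b, mob_inv, mob_inv]
  -- the functional
  by_contra htri
  obtain ⟨f, hf, hker⟩ := Submodule.exists_le_ker_of_notMem htri
  let w : Option F → Option F → k := fun a b => f (Finsupp.single (ι a, ι b) 1)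
  have hpr : ∀ u, pr w u = f (J u) := by
    intro u
    simp only [J, map_sum, pr]
    apply Finset.sum_congr rfl
    intro a _
    apply Finset.sum_congr rfl
    intro b _
    have : (Finsupp.single (ι a, ι b) (u a b) : DD p k) =
        u a b • Finsupp.single (ι a, ι b) 1 := by simp
    rw [this, map_smul, smul_eq_mul, mul_comm]
  have hgen := fin_general v w ⟨hanti, hrow⟩ S hineq hsuppS hvne
    (by
      intro g hg
      obtain ⟨h, hh⟩ := hword g hg
      rw [hpr, hh]
      exact hker (hstab h x hx))
    (fun a b => wd (some 0) (some 1) a b + wd (some 1) none a b + wd none (some 0) a b)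
    (by
      refine ⟨fun a b => ?_, fun a => ?_⟩
      · change wd (some 0) (some 1) b a + wd (some 1) none b a + wd none (some 0) b a =
          - (wd (some 0) (some 1) a b + wd (some 1) none a b + wd none (some 0) a b)
        rw [wd_anti (some 0) (some 1) a b, wd_anti (some 1) none a b, wd_anti none (some 0) a b]
        ring
      · rw [Finset.sum_add_distrib, Finset.sum_add_distrib, wd_sum, wd_sum, wd_sum]
        ring)
  rw [hpr] at hgen
  have hJwd : ∀ a0 b0 : Option F, J (fun a b => ((wd a0 b0 a b : ℤ) : k)) =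
      wedge k (ι a0) (ι b0) := by
    have h1 : ∀ a0 b0 : Option F, ∑ a, ∑ b, (Finsupp.single (ι a, ι b)
        (if a = a0 ∧ b = b0 then (1 : k) else 0) : DD p k) = Finsupp.single (ι a0, ι b0) 1 := by
      intro a0 b0
      rw [Finset.sum_eq_single a0]
      · rw [Finset.sum_eq_single b0]
        · simp
        · intro b _ hb
          simp [hb]
        · simp
      · intro a _ ha
        apply Finset.sum_eq_zero
        intro b _
        simp [ha]
      · simp
    intro a0 b0
    simp only [J, wd, wedge]
    rw [← h1 a0 b0, ← h1 b0 a0, ← Finset.sum_sub_distrib]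
    apply Finset.sum_congr rfl
    intro a _
    rw [← Finset.sum_sub_distrib]
    apply Finset.sum_congr rfl
    intro b _
    rw [← Finsupp.single_sub]
    push_cast
    rfl
  have hJadd : J (fun a b => ((wd (some 0) (some 1) a b + wd (some 1) none a b +
      wd none (some 0) a b : ℤ) : k)) = tri k (some (0 : KK p)) (some 1) none := by
    have e : J (fun a b => ((wd (some 0) (some 1) a b + wd (some 1) none a b +
      wd none (some 0) a b : ℤ) : k)) = J (fun a b => ((wd (some 0) (some 1) a b : ℤ) : k)) +
        J (fun a b => ((wd (some 1) none a b : ℤ) : k)) +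
        J (fun a b => ((wd none (some 0) a b : ℤ) : k)) := by
      simp only [J]
      rw [← Finset.sum_add_distrib, ← Finset.sum_add_distrib]
      apply Finset.sum_congr rfl
      intro a _
      rw [← Finset.sum_add_distrib, ← Finset.sum_add_distrib]
      apply Finset.sum_congr rfl
      intro b _
      rw [← Finsupp.single_add, ← Finsupp.single_add]
      push_cast
      rfl
    rw [e, hJwd, hJwd, hJwd]
    rfl
  rw [hJadd] at hgen
  exact hf hgen

end Pool.Agent.H15ST
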