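import Pool.Agent.H15ST.FinC

set_option autoImplicit false
set_option linter.unusedSectionVars false

namespace Pool.Agent.H15ST

open Finset

/-- A finitely generated `ℚ`-algebra inside a field maps to `ℂ`. -/
theorem exists_hom (k : Type*) [Field k] [CharZero k] (A : Set k) (hA : A.Finite) :
    Nonempty (Algebra.adjoin ℚ A →ₐ[ℚ] ℂ) := by
  let R := Algebra.adjoin ℚ A
  have hfg : Algebra.FiniteType ℚ R := by
    rw [← Subalgebra.fg_iff_finiteType]
    exact Subalgebra.fg_def.2 ⟨A, hA, rfl⟩
  obtain ⟨m, hm⟩ := Ideal.exists_maximal R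
  let _ : Field (R ⧸ m) := Ideal.Quotient.field m
  have hfin : Module.Finite ℚ (R ⧸ m) := finite_of_finite_type_of_isJacobsonRing ℚ (R ⧸ m)
  have halg : Algebra.IsAlgebraic ℚ (R ⧸ m) := inferInstance
  let f : (R ⧸ m) →ₐ[ℚ] ℂ := IsAlgClosed.lift
  exact ⟨f.comp (Ideal.Quotient.mkₐ ℚ m)⟩

variable {F : Type} [Field F] [DecidableEq F] [Fintype F]

theorem fin_general {k : Type*} [Field k] [CharZero k] (v w : Option F → Option F → k)
    (hv : Circ v) (S : Finset (Option F))
    (hS : (S.card : ℝ) ^ 4 * (2 + 2 * Real.sqrt (Fintype.card F)) <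
      4 * ((Fintype.card F : ℝ) - 1))
    (hsupp : ∀ a b, v a b ≠ 0 → a ∈ S ∧ b ∈ S) (hne : ∃ a b, v a b ≠ 0)
    (hw : ∀ g, Word g → pr w (fun a b => v (g a) (g b)) = 0)
    (τ : Option F → Option F → ℤ) (hτ : Circ τ) : pr w (fun a b => (τ a b : k)) = 0 := by
  by_contra hcon
  obtain ⟨a1, b1, hab⟩ := hne
  set c := v a1 b1 with hc
  set d := pr w (fun a b => (τ a b : k)) with hd
  -- the subring
  let A : Set k := (Set.range fun x : Option F × Option F => v x.1 x.2 * c⁻¹) ∪
    (Set.range fun x : Option F × Option F => w x.1 x.2 * d⁻¹)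
  have hA : A.Finite := (Set.finite_range _).union (Set.finite_range _)
  obtain ⟨σ⟩ := exists_hom k A hA
  let v' : Option F → Option F → Algebra.adjoin ℚ A := fun a b =>
    ⟨v a b * c⁻¹, Algebra.subset_adjoin (Or.inl ⟨(a, b), rfl⟩)⟩
  let w' : Option F → Option F → Algebra.adjoin ℚ A := fun a b =>
    ⟨w a b * d⁻¹, Algebra.subset_adjoin (Or.inr ⟨(a, b), rfl⟩)⟩
  have hv' : Circ v' := by
    refine ⟨fun a b => ?_, fun a => ?_⟩
    · apply Subtype.ext
      change v b a * c⁻¹ = - (v a b * c⁻¹)
      rw [hv.1]; ring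
    · apply Subtype.ext
      change (Algebra.adjoin ℚ A).subtype (∑ b, v' a b) = 0
      rw [map_sum]
      change ∑ b, v a b * c⁻¹ = 0
      rw [← Finset.sum_mul, hv.2, zero_mul]
  have hσv : Circ (fun a b => σ (v' a b)) := by
    refine ⟨fun a b => ?_, fun a => ?_⟩
    · change σ (v' b a) = - σ (v' a b)
      rw [hv'.1, map_neg]
    · change ∑ b, σ (v' a b) = 0
      rw [← map_sum, hv'.2, map_zero]
  have h1 : σ (v' a1 b1) = 1 := by
    have : v' a1 b1 = 1 := by
      apply Subtype.ext
      change v a1 b1 * c⁻¹ = 1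
      rw [← hc]
      exact mul_inv_cancel₀ hab
    rw [this, map_one]
  have hpr : ∀ u : Option F → Option F → Algebra.adjoin ℚ A,
      pr (fun a b => σ (w' a b)) (fun a b => σ (u a b)) = σ (pr w' u) := by
    intro u
    unfold pr
    rw [map_sum]
    apply Finset.sum_congr rfl
    intro a _
    rw [map_sum]
    apply Finset.sum_congr rfl
    intro b _
    rw [map_mul]
  have hval : ∀ u : Option F → Option F → Algebra.adjoin ℚ A,
      (pr (R := ↥(Algebra.adjoin ℚ A)) w' u).1 = ∑ a, ∑ b, (w a b * d⁻¹) * (u a b).1 := by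
    intro u
    change (Algebra.adjoin ℚ A).val (pr (R := ↥(Algebra.adjoin ℚ A)) w' u) = _
    unfold pr
    rw [map_sum]
    apply Finset.sum_congr rfl
    intro a _
    rw [map_sum]
    apply Finset.sum_congr rfl
    intro b _
    rw [map_mul]; rfl
  have hfin := fin_complex (fun a b => σ (v' a b)) (fun a b => σ (w' a b)) hσv S hS
    (by
      intro a b h
      apply hsupp
      intro h0
      apply h
      have : v' a b = 0 := by
        apply Subtype.ext
        change v a b * c⁻¹ = 0
        rw [h0, zero_mul]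
      rw [this, map_zero])
    ⟨a1, b1, by rw [h1]; exact one_ne_zero⟩
    (by
      intro g hg
      rw [hpr (fun a b => v' (g a) (g b))]
      have : pr w' (fun a b => v' (g a) (g b)) = 0 := by
        apply Subtype.ext
        rw [hval]
        change ∑ a, ∑ b, (w a b * d⁻¹) * (v (g a) (g b) * c⁻¹) = 0
        have h2 := hw g hg
        unfold pr at h2
        have h3 : ∑ a, ∑ b, (w a b * d⁻¹) * (v (g a) (g b) * c⁻¹) =
            (∑ a, ∑ b, w a b * v (g a) (g b)) * (d⁻¹ * c⁻¹) := by
          rw [Finset.sum_mul]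
          apply Finset.sum_congr rfl
          intro a _
          rw [Finset.sum_mul]
          apply Finset.sum_congr rfl
          intro b _
          ring
        rw [h3, h2, zero_mul]
      rw [this, map_zero])
    (fun a b => (τ a b : ℂ))
    (by
      refine ⟨fun a b => ?_, fun a => ?_⟩
      · change ((τ b a : ℤ) : ℂ) = - ((τ a b : ℤ) : ℂ)
        rw [hτ.1]; push_cast; rfl
      · rw [← Int.cast_sum, hτ.2, Int.cast_zero])
  have h4 : (fun a b => (τ a b : ℂ)) = fun a b => σ ((τ a b : Algebra.adjoin ℚ A)) := by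
    funext a b
    rw [map_intCast]
  rw [h4, hpr (fun a b => ((τ a b : ℤ) : Algebra.adjoin ℚ A))] at hfin
  have h5 : pr w' (fun a b => ((τ a b : ℤ) : Algebra.adjoin ℚ A)) = 1 := by
    apply Subtype.ext
    rw [hval]
    have h6 : ∑ a, ∑ b, (w a b * d⁻¹) * (((τ a b : ℤ) : Algebra.adjoin ℚ A)).1 =
        d * d⁻¹ := by
      rw [hd]
      unfold pr
      rw [Finset.sum_mul]
      apply Finset.sum_congr rfl
      intro a _
      rw [Finset.sum_mul]
      apply Finset.sum_congr rfl
      intro b _
      push_cast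
      ring
    rw [h6, mul_inv_cancel₀ hcon]
    rfl
  rw [h5, map_one] at hfin
  exact one_ne_zero hfin

end Pool.Agent.H15ST
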