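import Pool.Agent.H15ST.Defs
import Pool.Agent.H15ST.Trans

set_option autoImplicit false
set_option linter.unusedSectionVars false

namespace Pool.Agent.H15ST

open Matrix TensorProduct

section mob

variable {K : Type} [Field K]

open Classical in
/-- Moebius transformations of `Option K`. -/
noncomputable def mob (g : SpecialLinearGroup (Fin 2) K) : Option K → Option K
  | none => if g.1 1 0 = 0 then none else some (g.1 0 0 / g.1 1 0)
  | some z => if g.1 1 0 * z + g.1 1 1 = 0 then none else
      some ((g.1 0 0 * z + g.1 0 1) / (g.1 1 0 * z + g.1 1 1))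

open Classical in
theorem mob_eq (g : SpecialLinearGroup (Fin 2) K) (x : Option K) :
    mob g x = ((SpecialLinearGroup.toGL g) • (show OnePoint K from x) : OnePoint K) := by
  cases x with
  | none =>
    have h := OnePoint.smul_infty_eq_ite (SpecialLinearGroup.toGL g)
    change _ = ((SpecialLinearGroup.toGL g) • (OnePoint.infty : OnePoint K) : OnePoint K)
    rw [h]
    by_cases h0 : g.1 1 0 = 0
    · have h0' : (SpecialLinearGroup.toGL g) 1 0 = 0 := h0
      simp only [mob, if_pos h0, if_pos h0']
      rfl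
    · have h0' : ¬ (SpecialLinearGroup.toGL g) 1 0 = 0 := h0
      simp only [mob, if_neg h0, if_neg h0']
      rfl
  | some z =>
    have h := OnePoint.smul_some_eq_ite (g := SpecialLinearGroup.toGL g) (k := z)
    change _ = ((SpecialLinearGroup.toGL g) • ((z : K) : OnePoint K) : OnePoint K)
    rw [h]
    by_cases h0 : g.1 1 0 * z + g.1 1 1 = 0
    · have h0' : (SpecialLinearGroup.toGL g) 1 0 * z + (SpecialLinearGroup.toGL g) 1 1 = 0 := h0
      simp only [mob, if_pos h0, if_pos h0']
      rfl
    · have h0' : ¬ (SpecialLinearGroup.toGL g) 1 0 * z + (SpecialLinearGroup.toGL g) 1 1 = 0 := h0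
      simp only [mob, if_neg h0, if_neg h0']
      rfl

theorem mob_mul (g h : SpecialLinearGroup (Fin 2) K) (x : Option K) :
    mob (g * h) x = mob g (mob h x) := by
  classical
  rw [mob_eq, mob_eq, mob_eq, map_mul, mul_smul]

theorem mob_one (x : Option K) : mob (1 : SpecialLinearGroup (Fin 2) K) x = x := by
  classical
  rw [mob_eq, map_one, one_smul]

theorem mob_inv (g : SpecialLinearGroup (Fin 2) K) (x : Option K) :
    mob g⁻¹ (mob g x) = x := by
  rw [← mob_mul, inv_mul_cancel, mob_one]

theorem mob_inj (g : SpecialLinearGroup (Fin 2) K) : Function.Injective (mob g) := by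
  intro x y h
  rw [← mob_inv g x, ← mob_inv g y, h]

theorem mob_none_iff (g : SpecialLinearGroup (Fin 2) K) : mob g none = none ↔ g.1 1 0 = 0 := by
  by_cases h : g.1 1 0 = 0 <;> simp [mob, h]

theorem mob_eps_none (x : K) (h : (!![1, x; 0, 1] : Matrix (Fin 2) (Fin 2) K).det = 1) :
    mob (⟨!![1, x; 0, 1], h⟩ : SpecialLinearGroup (Fin 2) K) none = none := by
  simp [mob]

theorem mob_eps_some (x z : K) (h : (!![1, x; 0, 1] : Matrix (Fin 2) (Fin 2) K).det = 1) :
    mob (⟨!![1, x; 0, 1], h⟩ : SpecialLinearGroup (Fin 2) K) (some z) = some (z + x) := by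
  simp [mob]

theorem mob_s_none (h : (!![0, 1; -1, 0] : Matrix (Fin 2) (Fin 2) K).det = 1) :
    mob (⟨!![0, 1; -1, 0], h⟩ : SpecialLinearGroup (Fin 2) K) none = some 0 := by
  simp [mob]

/-- Lifts of the generators. -/
theorem lift_tr (b : K) : ∃ g : SpecialLinearGroup (Fin 2) K, ∀ x, mob g x = trP b x := by
  refine ⟨⟨!![1, b; 0, 1], by rw [Matrix.det_fin_two_of]; ring⟩, ?_⟩
  intro x
  cases x with
  | none => rw [mob_eps_none]; rfl
  | some z => rw [mob_eps_some]; rfl

theorem lift_sc [IsAlgClosed K] (a : K) (ha : a ≠ 0) :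
    ∃ g : SpecialLinearGroup (Fin 2) K, ∀ x, mob g x = scP a x := by
  obtain ⟨r, hr⟩ := IsAlgClosed.exists_pow_nat_eq a (n := 2) (by norm_num)
  have hr0 : r ≠ 0 := by
    rintro rfl
    apply ha
    rw [← hr]; ring
  refine ⟨⟨!![r, 0; 0, r⁻¹], by rw [Matrix.det_fin_two_of]; field_simp; ring⟩, ?_⟩
  intro x
  cases x with
  | none => simp [mob, scP]
  | some z =>
    simp only [mob, scP]
    have : ¬ ((!![r, 0; 0, r⁻¹] : Matrix (Fin 2) (Fin 2) K) 1 0 * z +
        (!![r, 0; 0, r⁻¹] : Matrix (Fin 2) (Fin 2) K) 1 1 = 0) := by simp [hr0]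
    rw [if_neg this]
    simp only [Matrix.of_apply, Matrix.cons_val', Matrix.cons_val_zero, Matrix.cons_val_one,
      Matrix.cons_val_fin_one, add_zero, zero_mul, zero_add, Option.some.injEq]
    rw [← hr]
    field_simp

theorem lift_in [IsAlgClosed K] :
    ∃ g : SpecialLinearGroup (Fin 2) K, ∀ x, mob g x =
      (match x with
        | none => some 0
        | some z => (open Classical in if z = 0 then none else some z⁻¹)) := by
  obtain ⟨i, hi⟩ := IsAlgClosed.exists_pow_nat_eq (-1 : K) (n := 2) (by norm_num)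
  have hi0 : i ≠ 0 := by
    rintro rfl
    have h1 : (-1 : K) = 0 := by rw [← hi]; ring
    exact one_ne_zero (neg_eq_zero.1 h1)
  refine ⟨⟨!![0, i; i, 0], by rw [Matrix.det_fin_two_of]; linear_combination -hi⟩, ?_⟩
  intro x
  cases x with
  | none => simp [mob, hi0]
  | some z =>
    by_cases hz : z = 0
    · simp [mob, hz]
    · simp [mob, hz, hi0]
      field_simp

end mob

end Pool.Agent.H15ST
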