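import Pool.Agent.H15ST.Mob

set_option autoImplicit false
set_option linter.unusedSectionVars false

namespace Pool.Agent.H15ST

open Matrix TensorProduct

variable {p : ℕ} [Fact p.Prime]

theorem mob_none_eq_iff (g h : GG p) : mob g none = mob h none ↔ g⁻¹ * h ∈ Bor p := by
  constructor
  · intro e
    change (g⁻¹ * h).1 1 0 = 0
    rw [← mob_none_iff, mob_mul, ← e, mob_inv]
  · intro hb
    have h1 : mob (g⁻¹ * h) none = none := (mob_none_iff _).2 hb
    have h2 : mob g (mob (g⁻¹ * h) none) = mob h none := by
      rw [← mob_mul, mul_inv_cancel_left]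
    rw [← h2, h1]

/-- The map `G/B → ℙ¹(K)`. -/
noncomputable def qmap (p : ℕ) [Fact p.Prime] : (GG p ⧸ Bor p) → Option (KK p) :=
  Quotient.lift (s := QuotientGroup.leftRel (Bor p)) (fun g => mob g none) (by
    intro g h hgh
    exact (mob_none_eq_iff g h).2 (QuotientGroup.leftRel_apply.1 hgh))

theorem qmap_mk (g : GG p) : qmap p ((g : GG p) : GG p ⧸ Bor p) = mob g none := rfl

theorem qmap_bij : Function.Bijective (qmap p) := by
  constructor
  · intro x y
    induction x using QuotientGroup.induction_on with
    | H g =>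
      induction y using QuotientGroup.induction_on with
      | H h =>
        intro e
        rw [qmap_mk, qmap_mk, mob_none_eq_iff] at e
        exact QuotientGroup.eq.2 e
  · intro x
    cases x with
    | none => exact ⟨((1 : GG p) : GG p ⧸ Bor p), by rw [qmap_mk, mob_one]⟩
    | some z =>
      refine ⟨((eps z * sm p : GG p) : GG p ⧸ Bor p), ?_⟩
      rw [qmap_mk, mob_mul]
      unfold sm eps
      rw [mob_s_none, mob_eps_some, zero_add]

/-- `G/B ≃ ℙ¹(K)`. -/
noncomputable def qq (p : ℕ) [Fact p.Prime] : (GG p ⧸ Bor p) ≃ Option (KK p) :=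
  Equiv.ofBijective _ qmap_bij

theorem qq_smul (g : GG p) (x : GG p ⧸ Bor p) : qq p (g • x) = mob g (qq p x) := by
  induction x using QuotientGroup.induction_on with
  | H h =>
    change qmap p ((g * h : GG p) : GG p ⧸ Bor p) = mob g (qmap p ((h : GG p) : GG p ⧸ Bor p))
    rw [qmap_mk, qmap_mk, mob_mul]

variable {k : Type*} [Field k]

/-- The model `𝕜[ℙ¹ × ℙ¹]`. -/
abbrev DD (p : ℕ) [Fact p.Prime] (k : Type*) [Field k] : Type _ :=
  (Option (KK p) × Option (KK p)) →₀ k

noncomputable def Phi (p : ℕ) [Fact p.Prime] (k : Type*) [Field k] :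
    (Mtr p k ⊗[k] Mtr p k) ≃ₗ[k] DD p k :=
  (finsuppTensorFinsupp' k _ _).trans (Finsupp.domLCongr ((qq p).prodCongr (qq p)))

theorem Phi_single (x y : GG p ⧸ Bor p) (a b : k) :
    Phi p k (Finsupp.single x a ⊗ₜ Finsupp.single y b) =
      Finsupp.single (qq p x, qq p y) (a * b) := by
  unfold Phi
  rw [LinearEquiv.trans_apply, finsuppTensorFinsupp'_single_tmul_single,
    Finsupp.domLCongr_single]
  rfl

/-- The action on `𝕜[ℙ¹ × ℙ¹]`. -/
noncomputable def ga (g : GG p) : DD p k →ₗ[k] DD p k :=
  Finsupp.lmapDomain k k (Prod.map (mob g) (mob g))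

theorem ga_single (g : GG p) (a b : Option (KK p)) (r : k) :
    ga g (Finsupp.single (a, b) r) = Finsupp.single (mob g a, mob g b) r := by
  simp [ga, Finsupp.mapDomain_single]

theorem ga_mul (g h : GG p) (x : DD p k) : ga (g * h) x = ga g (ga h x) := by
  induction x using Finsupp.induction_linear with
  | zero => simp
  | add x y hx hy => rw [map_add, map_add, map_add, hx, hy]
  | single y r =>
    obtain ⟨a, b⟩ := y
    rw [ga_single, ga_single, ga_single, mob_mul, mob_mul]

theorem ga_one (x : DD p k) : ga (1 : GG p) x = x := by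
  induction x using Finsupp.induction_linear with
  | zero => simp
  | add x y hx hy => rw [map_add, hx, hy]
  | single y r =>
    obtain ⟨a, b⟩ := y
    rw [ga_single, mob_one, mob_one]

theorem Phi_act2 (g : GG p) (t : Mtr p k ⊗[k] Mtr p k) :
    Phi p k (act2 g t) = ga g (Phi p k t) := by
  induction t using TensorProduct.induction_on with
  | zero => simp
  | add x y hx hy => rw [map_add, map_add, map_add, map_add, hx, hy]
  | tmul a b =>
    induction a using Finsupp.induction_linear with
    | zero => simp
    | add x y hx hy =>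
      rw [TensorProduct.add_tmul, map_add, map_add, map_add, map_add, hx, hy]
    | single x r =>
      induction b using Finsupp.induction_linear with
      | zero => simp
      | add x y hx hy =>
        rw [TensorProduct.tmul_add, map_add, map_add, map_add, map_add, hx, hy]
      | single y r' =>
        have h1 : act2 g (Finsupp.single x r ⊗ₜ[k] Finsupp.single y r') =
            Finsupp.single (g • x) r ⊗ₜ[k] Finsupp.single (g • y) r' := by
          unfold act2 act
          rw [TensorProduct.map_tmul, Finsupp.lmapDomain_apply, Finsupp.lmapDomain_apply,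
            Finsupp.mapDomain_single, Finsupp.mapDomain_single]
        rw [h1, Phi_single, Phi_single, ga_single, qq_smul, qq_smul]

/-- `[a] ∧ [b]`. -/
noncomputable def wedge (k : Type*) [Field k] (a b : Option (KK p)) : DD p k :=
  Finsupp.single (a, b) 1 - Finsupp.single (b, a) 1

/-- The oriented triangle. -/
noncomputable def tri (k : Type*) [Field k] (a b c : Option (KK p)) : DD p k :=
  wedge k a b + wedge k b c + wedge k c a

theorem ga_wedge (g : GG p) (a b : Option (KK p)) :
    ga g (wedge k a b) = wedge k (mob g a) (mob g b) := by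
  unfold wedge
  rw [map_sub, ga_single, ga_single]

theorem ga_tri (g : GG p) (a b c : Option (KK p)) :
    ga g (tri k a b c) = tri k (mob g a) (mob g b) (mob g c) := by
  unfold tri
  rw [map_add, map_add, ga_wedge, ga_wedge, ga_wedge]

theorem Phi_rho (x y : KK p) :
    Phi p k (rho k x y) = (2 : k)⁻¹ • tri k (some x) (some y) none := by
  have hee : ∀ z : KK p, ee k z =
      Finsupp.single ((qq p).symm none) 1 - Finsupp.single ((qq p).symm (some z)) 1 := by
    intro z
    unfold ee eta onetr
    have hA : ∀ (g : GG p) (w : GG p ⧸ Bor p), act (k := k) g (Finsupp.single w 1) =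
        Finsupp.single (g • w) 1 := by
      intro g w
      unfold act
      rw [Finsupp.lmapDomain_apply, Finsupp.mapDomain_single]
    rw [map_sub, hA, hA, hA]
    have h1 : (eps z : GG p) • (((1 : GG p) : GG p ⧸ Bor p)) = (qq p).symm none := by
      rw [Equiv.eq_symm_apply, qq_smul]
      change mob (eps z) (qmap p ((1 : GG p) : GG p ⧸ Bor p)) = none
      rw [qmap_mk, mob_one]
      unfold eps
      rw [mob_eps_none]
    have h2 : (eps z : GG p) • ((sm p : GG p) • (((1 : GG p) : GG p ⧸ Bor p))) =
        (qq p).symm (some z) := by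
      rw [Equiv.eq_symm_apply, qq_smul, qq_smul]
      change mob (eps z) (mob (sm p) (qmap p ((1 : GG p) : GG p ⧸ Bor p))) = some z
      rw [qmap_mk, mob_one]
      unfold eps sm
      rw [mob_s_none, mob_eps_some, zero_add]
    rw [h1, h2]
  unfold rho
  rw [map_smul, map_sub, hee, hee, TensorProduct.sub_tmul, TensorProduct.tmul_sub,
    TensorProduct.tmul_sub, TensorProduct.sub_tmul, TensorProduct.tmul_sub,
    TensorProduct.tmul_sub]
  simp only [map_sub, Phi_single, Equiv.apply_symm_apply, mul_one]
  congr 1
  unfold tri wedge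
  abel

end Pool.Agent.H15ST
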