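import Mathlib

set_option autoImplicit false

/-!
# Definitions for the statement: the module `V_-` of `SL₂` over the algebraic closure of `𝔽_p`
-/

namespace Pool.Agent.H15ST.Stm

open Matrix TensorProduct

/-- `K`, the algebraic closure of `𝔽_p` (it is also the algebraic closure of `𝔽_q`, `q = p ^ f`). -/
def K (p : ℕ) [Fact p.Prime] : Type := AlgebraicClosure (ZMod p)

noncomputable instance (p : ℕ) [Fact p.Prime] : Field (K p) :=
  inferInstanceAs (Field (AlgebraicClosure (ZMod p)))

/-- The abstract group `G = SL₂(K)`. -/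
def G (p : ℕ) [Fact p.Prime] : Type := SpecialLinearGroup (Fin 2) (K p)

noncomputable instance (p : ℕ) [Fact p.Prime] : Group (G p) :=
  inferInstanceAs (Group (SpecialLinearGroup (Fin 2) (K p)))

/-- The underlying matrix. -/
def mat {p : ℕ} [Fact p.Prime] (g : G p) : Matrix (Fin 2) (Fin 2) (K p) := Subtype.val g

/-- The subgroup `B` of upper triangular matrices. -/
def B (p : ℕ) [Fact p.Prime] : Subgroup (G p) where
  carrier := {g | mat g 1 0 = 0}
  mul_mem' := by
    intro a b ha hb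
    change (mat a * mat b) 1 0 = 0
    rw [Matrix.mul_apply, Fin.sum_univ_two, ha, hb]
    ring
  one_mem' := by
    change (1 : Matrix (Fin 2) (Fin 2) (K p)) 1 0 = 0
    simp
  inv_mem' := by
    intro a ha
    change (Matrix.adjugate (mat a)) 1 0 = 0
    rw [Matrix.adjugate_fin_two]
    change mat a 1 0 = 0 at ha
    simp [ha]

/-- The coset space `G/B`. -/
def GB (p : ℕ) [Fact p.Prime] : Type := G p ⧸ B p

noncomputable instance (p : ℕ) [Fact p.Prime] : MulAction (G p) (GB p) :=
  inferInstanceAs (MulAction (G p) (G p ⧸ B p))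

/-- The coset `B`. -/
noncomputable def coset (p : ℕ) [Fact p.Prime] : GB p := ((1 : G p) : G p ⧸ B p)

/-- `M(tr) = 𝕜G ⊗_{𝕜B} 𝕜_tr`, realised as the permutation module `𝕜[G/B]`. -/
def M (p : ℕ) [Fact p.Prime] (k : Type*) [Field k] : Type _ := GB p →₀ k

noncomputable instance (p : ℕ) [Fact p.Prime] (k : Type*) [Field k] : AddCommGroup (M p k) :=
  inferInstanceAs (AddCommGroup (GB p →₀ k))

noncomputable instance (p : ℕ) [Fact p.Prime] (k : Type*) [Field k] : Module k (M p k) :=
  inferInstanceAs (Module k (GB p →₀ k))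

/-- The action of `g` on `M(tr)`. -/
noncomputable def act {p : ℕ} [Fact p.Prime] {k : Type*} [Field k] (g : G p) :
    M p k →ₗ[k] M p k :=
  Finsupp.lmapDomain k k (fun x : GB p => g • x)

/-- `M(tr) ⊗ M(tr)`. -/
def MM (p : ℕ) [Fact p.Prime] (k : Type*) [Field k] : Type _ := M p k ⊗[k] M p k

noncomputable instance (p : ℕ) [Fact p.Prime] (k : Type*) [Field k] : AddCommGroup (MM p k) :=
  inferInstanceAs (AddCommGroup (M p k ⊗[k] M p k))

noncomputable instance (p : ℕ) [Fact p.Prime] (k : Type*) [Field k] : Module k (MM p k) :=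
  inferInstanceAs (Module k (M p k ⊗[k] M p k))

/-- `a ⊗ b`. -/
noncomputable def tens {p : ℕ} [Fact p.Prime] {k : Type*} [Field k] (a b : M p k) : MM p k :=
  a ⊗ₜ[k] b

/-- The diagonal action of `g` on `M(tr) ⊗ M(tr)`. -/
noncomputable def act2 {p : ℕ} [Fact p.Prime] {k : Type*} [Field k] (g : G p) :
    MM p k →ₗ[k] MM p k :=
  TensorProduct.map (act g) (act g)

/-- The matrix `ε(x)`. -/
noncomputable def eps {p : ℕ} [Fact p.Prime] (x : K p) : G p :=
  ⟨!![1, x; 0, 1], by rw [Matrix.det_fin_two_of]; ring⟩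

/-- The matrix `s`. -/
noncomputable def sm (p : ℕ) [Fact p.Prime] : G p :=
  ⟨!![0, 1; -1, 0], by rw [Matrix.det_fin_two_of]; ring⟩

/-- `1_tr`. -/
noncomputable def onetr (p : ℕ) [Fact p.Prime] (k : Type*) [Field k] : M p k :=
  Finsupp.single (coset p) (1 : k)

/-- `η = (1 - s) 1_tr`. -/
noncomputable def eta (p : ℕ) [Fact p.Prime] (k : Type*) [Field k] : M p k :=
  onetr p k - act (sm p) (onetr p k)

/-- `e_x = ε(x) η`. -/
noncomputable def ee {p : ℕ} [Fact p.Prime] (k : Type*) [Field k] (x : K p) : M p k :=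
  act (eps x) (eta p k)

/-- `ρ_{x,y} = ½ (e_x ⊗ e_y - e_y ⊗ e_x)`. -/
noncomputable def rho {p : ℕ} [Fact p.Prime] (k : Type*) [Field k] (x y : K p) : MM p k :=
  (2 : k)⁻¹ • (tens (ee k x) (ee k y) - tens (ee k y) (ee k x))

/-- `V_-`, the span of all `ρ_{x,y}`. -/
noncomputable def Vminus (p : ℕ) [Fact p.Prime] (k : Type*) [Field k] : Submodule k (MM p k) :=
  Submodule.span k {v | ∃ x y : K p, v = rho k x y}

/-- Stability under the diagonal action of `G`. -/
def Stable {p : ℕ} [Fact p.Prime] {k : Type*} [Field k] (N : Submodule k (MM p k)) : Prop :=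
  ∀ g : G p, ∀ x ∈ N, act2 g x ∈ N

end Pool.Agent.H15ST.Stm
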